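import Mathlib

/-!
Functions at the dyadic scale `m`, extended to all scales as martingales.
-/

set_option autoImplicit false

open Filter Topology Finset

namespace Pool.Agent.D0H27.CAP

/-- the martingale given by the function `φ` at the scale `m` -/
noncomputable def ext (m : ℕ) (φ : ℕ → ℝ) (n j : ℕ) : ℝ :=
  if m ≤ n then φ (j / 2 ^ (n - m))
  else (∑ t ∈ range (2 ^ (m - n)), φ (j * 2 ^ (m - n) + t)) / 2 ^ (m - n)

lemma ext_up {m n : ℕ} (h : m ≤ n) (φ : ℕ → ℝ) (j : ℕ) : ext m φ n j = φ (j / 2 ^ (n - m)) :=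
  if_pos h

lemma ext_avg {m n : ℕ} (h : n ≤ m) (φ : ℕ → ℝ) (j : ℕ) :
    ext m φ n j = (∑ t ∈ range (2 ^ (m - n)), φ (j * 2 ^ (m - n) + t)) / 2 ^ (m - n) := by
  rcases eq_or_lt_of_le h with h1 | h1
  · subst h1
    rw [ext_up le_rfl]
    simp
  · exact if_neg (by omega)

lemma sum_split (φ : ℕ → ℝ) (j d : ℕ) :
    ∑ t ∈ range (2 ^ (d + 1)), φ (j * 2 ^ (d + 1) + t) =
      ∑ t ∈ range (2 ^ d), φ (2 * j * 2 ^ d + t) +
      ∑ t ∈ range (2 ^ d), φ ((2 * j + 1) * 2 ^ d + t) := by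
  rw [show 2 ^ (d + 1) = 2 ^ d + 2 ^ d by ring, Finset.sum_range_add]
  congr 1
  · refine Finset.sum_congr rfl fun t _ => ?_
    congr 1
    ring
  · refine Finset.sum_congr rfl fun t _ => ?_
    congr 1
    ring

lemma ext_mart (m : ℕ) (φ : ℕ → ℝ) (n j : ℕ) :
    ext m φ n j = (ext m φ (n + 1) (2 * j) + ext m φ (n + 1) (2 * j + 1)) / 2 := by
  by_cases h : m ≤ n
  · rw [ext_up h, ext_up (by omega), ext_up (by omega)]
    have e : n + 1 - m = (n - m) + 1 := by omega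
    have e1 : 2 * j / 2 ^ (n + 1 - m) = j / 2 ^ (n - m) := by
      rw [e, pow_succ, mul_comm (2 ^ (n - m)) 2, Nat.mul_div_mul_left _ _ (by norm_num)]
    have e2 : (2 * j + 1) / 2 ^ (n + 1 - m) = j / 2 ^ (n - m) := by
      rw [e, pow_succ, mul_comm (2 ^ (n - m)) 2, ← Nat.div_div_eq_div_mul]
      congr 1
      omega
    rw [e1, e2]
    ring
  · rw [ext_avg (by omega), ext_avg (by omega), ext_avg (by omega)]
    have e : m - n = (m - (n + 1)) + 1 := by omega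
    rw [e, sum_split, pow_succ]
    field_simp

/-- the shift by one interval -/
noncomputable def sh (φ : ℕ → ℝ) (j : ℕ) : ℝ := if j = 0 then 0 else φ (j - 1)

lemma ext_add (m : ℕ) (φ ψ : ℕ → ℝ) (n j : ℕ) :
    ext m (fun t => φ t + ψ t) n j = ext m φ n j + ext m ψ n j := by
  unfold ext
  split_ifs
  · rfl
  · rw [Finset.sum_add_distrib, add_div]

lemma ext_smul (m : ℕ) (c : ℝ) (φ : ℕ → ℝ) (n j : ℕ) :
    ext m (fun t => c * φ t) n j = c * ext m φ n j := by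
  unfold ext
  split_ifs
  · rfl
  · rw [← Finset.mul_sum, mul_div_assoc]

lemma sh_add (φ ψ : ℕ → ℝ) : sh (fun t => φ t + ψ t) = fun t => sh φ t + sh ψ t := by
  funext j
  unfold sh
  split_ifs
  · rw [add_zero]
  · rfl

lemma sh_smul (c : ℝ) (φ : ℕ → ℝ) : sh (fun t => c * φ t) = fun t => c * sh φ t := by
  funext j
  unfold sh
  split_ifs
  · rw [mul_zero]
  · rfl

lemma ext_sum {ι : Type} (s : Finset ι) (m : ℕ) (φ : ι → ℕ → ℝ) (n j : ℕ) :
    ∑ a ∈ s, ext m (φ a) n j = ext m (fun t => ∑ a ∈ s, φ a t) n j := by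
  unfold ext
  split_ifs
  · rfl
  · rw [← Finset.sum_div, Finset.sum_comm]

lemma ext_zero (m n j : ℕ) : ext m (fun _ => 0) n j = 0 := by
  unfold ext
  split_ifs
  · rfl
  · simp

/-- telescoping -/
lemma telescope (φ : ℕ → ℝ) (b M : ℕ) :
    ∑ t ∈ range (M + 1), (sh φ (b + t) - φ (b + t)) = sh φ b - φ (b + M) := by
  induction M with
  | zero => simp
  | succ M ih =>
    rw [Finset.sum_range_succ, ih]
    have : sh φ (b + (M + 1)) = φ (b + M) := by
      unfold sh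
      rw [if_neg (by omega)]
      rfl
    rw [this]
    ring

lemma ext_diff {m n : ℕ} (h : n ≤ m) (φ : ℕ → ℝ) (j : ℕ) :
    ext m (sh φ) n j - ext m φ n j =
      (sh φ (j * 2 ^ (m - n)) - φ (j * 2 ^ (m - n) + (2 ^ (m - n) - 1))) / 2 ^ (m - n) := by
  rw [ext_avg h, ext_avg h, ← sub_div, ← Finset.sum_sub_distrib]
  congr 1
  have e : 2 ^ (m - n) = (2 ^ (m - n) - 1) + 1 := by
    have : 0 < 2 ^ (m - n) := by positivity
    omega
  conv_lhs => rw [show range (2 ^ (m - n)) = range ((2 ^ (m - n) - 1) + 1) by rw [← e]]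
  exact telescope φ (j * 2 ^ (m - n)) _

/-- iterated averages of a martingale -/
lemma mart_iter (ξ : ℕ → ℕ → ℝ)
    (hξ : ∀ n j, j < 2 ^ n → ξ n j = (ξ (n + 1) (2 * j) + ξ (n + 1) (2 * j + 1)) / 2) :
    ∀ d n j, j < 2 ^ n → ξ n j = (∑ t ∈ range (2 ^ d), ξ (n + d) (j * 2 ^ d + t)) / 2 ^ d := by
  intro d
  induction d with
  | zero => intro n j _; simp
  | succ d ih =>
    intro n j hj
    have h1 : 2 * j < 2 ^ (n + 1) := by rw [pow_succ]; omega
    have h2 : 2 * j + 1 < 2 ^ (n + 1) := by rw [pow_succ]; omega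
    rw [hξ n j hj, ih (n + 1) (2 * j) h1, ih (n + 1) (2 * j + 1) h2, sum_split,
      show n + (d + 1) = n + 1 + d by ring, pow_succ]
    field_simp

lemma mart_ext (ξ : ℕ → ℕ → ℝ)
    (hξ : ∀ n j, j < 2 ^ n → ξ n j = (ξ (n + 1) (2 * j) + ξ (n + 1) (2 * j + 1)) / 2)
    {m n j : ℕ} (h : n ≤ m) (hj : j < 2 ^ n) : ξ n j = ext m (ξ m) n j := by
  rw [ext_avg h, mart_iter ξ hξ (m - n) n j hj, show n + (m - n) = m by omega]

end Pool.Agent.D0H27.CAP
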