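import Mathlib

/-!
Extension of odd affine maps from the unit ball, and a uniform approximation lemma.
-/

set_option autoImplicit false

open Set Filter Topology

namespace Pool.Agent.D0H27.CAP

/-- An odd affine map on the unit ball is the restriction of a linear map. -/
theorem exists_linear {E F : Type} [NormedAddCommGroup E] [NormedSpace ℝ E]
    [AddCommGroup F] [Module ℝ F] (h : E → F)
    (haff : ∀ x y : E, ‖x‖ ≤ 1 → ‖y‖ ≤ 1 → ∀ t : ℝ, 0 ≤ t → t ≤ 1 →
      h (t • x + (1 - t) • y) = t • h x + (1 - t) • h y)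
    (hodd : ∀ x : E, ‖x‖ ≤ 1 → h (-x) = - h x) :
    ∃ L : E →ₗ[ℝ] F, ∀ x, ‖x‖ ≤ 1 → L x = h x := by
  have h0 : h 0 = 0 := by
    have h1 := hodd 0 (by simp)
    rw [neg_zero] at h1
    have h2 : (2 : ℝ) • h 0 = 0 := by
      rw [two_smul]
      nth_rewrite 1 [h1]
      exact neg_add_cancel _
    exact (smul_eq_zero.1 h2).resolve_left two_ne_zero
  have hsm : ∀ (x : E) (t : ℝ), ‖x‖ ≤ 1 → 0 ≤ t → t ≤ 1 → h (t • x) = t • h x := by
    intro x t hx ht0 ht1
    have := haff x 0 hx (by simp) t ht0 ht1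
    rwa [smul_zero, add_zero, h0, smul_zero, add_zero] at this
  -- independence of the scaling
  have hind : ∀ (x : E) (c c' : ℝ), 0 < c → ‖x‖ ≤ c → c ≤ c' →
      c • h (c⁻¹ • x) = c' • h (c'⁻¹ • x) := by
    intro x c c' hc hx hcc
    have hc' : 0 < c' := lt_of_lt_of_le hc hcc
    have h1 : ‖c⁻¹ • x‖ ≤ 1 := by
      rw [norm_smul, norm_inv, Real.norm_of_nonneg hc.le, inv_mul_le_iff₀ hc]
      linarith
    have h2 := hsm (c⁻¹ • x) (c / c') h1 (by positivity) (by rw [div_le_one hc']; exact hcc)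
    rw [smul_smul] at h2
    have e1 : c / c' * c⁻¹ = c'⁻¹ := by field_simp
    rw [e1] at h2
    rw [h2, smul_smul]
    congr 1
    field_simp
  let L : E → F := fun x => (‖x‖ + 1) • h ((‖x‖ + 1)⁻¹ • x)
  have hL : ∀ (x : E) (c : ℝ), 0 < c → ‖x‖ ≤ c → L x = c • h (c⁻¹ • x) := by
    intro x c hc hx
    rcases le_total c (‖x‖ + 1) with h1 | h1
    · exact (hind x c _ hc hx h1).symm
    · exact hind x _ c (by positivity) (by linarith) h1
  have hLs : ∀ (t : ℝ) (x : E), 0 ≤ t → L (t • x) = t • L x := by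
    intro t x ht
    rcases eq_or_lt_of_le ht with h1 | h1
    · rw [← h1, zero_smul, zero_smul, hL 0 1 one_pos (by simp), smul_zero, h0, smul_zero]
    · have hc : 0 < ‖x‖ + 1 := by positivity
      rw [hL (t • x) (t * (‖x‖ + 1)) (by positivity) (by
        rw [norm_smul, Real.norm_of_nonneg ht]
        nlinarith [norm_nonneg x]), smul_smul, mul_smul]
      congr 3
      field_simp
  have hLn : ∀ x : E, L (-x) = - L x := by
    intro x
    have hc : 0 < ‖x‖ + 1 := by positivity
    show (‖-x‖ + 1) • h ((‖-x‖ + 1)⁻¹ • -x) = -((‖x‖ + 1) • h ((‖x‖ + 1)⁻¹ • x))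
    rw [norm_neg, smul_neg, hodd, smul_neg]
    rw [norm_smul, norm_inv, Real.norm_of_nonneg hc.le, inv_mul_le_iff₀ hc]
    linarith
  have hLa : ∀ x y : E, L (x + y) = L x + L y := by
    intro x y
    set c : ℝ := ‖x‖ + ‖y‖ + 1 with hc
    have hc0 : 0 < c := by positivity
    have hx : ‖x‖ ≤ c := by rw [hc]; linarith [norm_nonneg y]
    have hy : ‖y‖ ≤ c := by rw [hc]; linarith [norm_nonneg x]
    have hx' : ‖c⁻¹ • x‖ ≤ 1 := by
      rw [norm_smul, norm_inv, Real.norm_of_nonneg hc0.le, inv_mul_le_iff₀ hc0]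
      linarith
    have hy' : ‖c⁻¹ • y‖ ≤ 1 := by
      rw [norm_smul, norm_inv, Real.norm_of_nonneg hc0.le, inv_mul_le_iff₀ hc0]
      linarith
    rw [hL (x + y) (2 * c) (by positivity) (by
      refine (norm_add_le _ _).trans ?_
      linarith), hL x c hc0 hx, hL y c hc0 hy]
    have h1 := haff (c⁻¹ • x) (c⁻¹ • y) hx' hy' (1 / 2) (by norm_num) (by norm_num)
    have e1 : (2 * c)⁻¹ • (x + y) = (1 / 2 : ℝ) • (c⁻¹ • x) + (1 - 1 / 2 : ℝ) • (c⁻¹ • y) := by
      rw [smul_smul, smul_smul, smul_add]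
      congr 2
      · field_simp
      · field_simp
        norm_num
    rw [e1, h1, smul_add, smul_smul, smul_smul]
    congr 2
    · ring
    · ring
  refine ⟨{ toFun := L, map_add' := hLa, map_smul' := fun t x => ?_ }, fun x hx => ?_⟩
  · rw [RingHom.id_apply]
    rcases le_total 0 t with h1 | h1
    · exact hLs t x h1
    · have h2 := hLs (-t) x (by linarith)
      rw [neg_smul, hLn, neg_smul] at h2
      exact neg_injective h2
  · show L x = h x
    rw [hL x 1 one_pos hx, inv_one, one_smul, one_smul]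

/-- A continuous map on a compact subset of a countable product depends, up to `ε`, only on
finitely many coordinates. -/
theorem finite_coord {G : ℕ → Type} [∀ n, TopologicalSpace (G n)] [∀ n, T2Space (G n)]
    (X : Set (∀ n, G n)) (hX : IsCompact X) {E : Type} [NormedAddCommGroup E] (F : X → E)
    (hF : Continuous F) (ε : ℝ) (hε : 0 < ε) :
    ∃ N : ℕ, ∀ x x' : X, (∀ n ≤ N, (x : ∀ n, G n) n = (x' : ∀ n, G n) n) →
      ‖F x - F x'‖ < ε := by
  by_contra hcon
  push Not at hcon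
  haveI : CompactSpace X := isCompact_iff_compactSpace.1 hX
  let C : ℕ → Set (X × X) := fun N => {p | (∀ n ≤ N, (p.1 : ∀ n, G n) n = (p.2 : ∀ n, G n) n) ∧
    ε ≤ ‖F p.1 - F p.2‖}
  have hcl : ∀ N, IsClosed (C N) := by
    intro N
    have : C N = (⋂ n, ⋂ _ : n ≤ N, {p : X × X | (p.1 : ∀ n, G n) n = (p.2 : ∀ n, G n) n}) ∩
        {p : X × X | ε ≤ ‖F p.1 - F p.2‖} := by
      ext p
      simp only [C, mem_ofPred_eq, mem_inter_iff, mem_iInter]
    rw [this]
    refine IsClosed.inter (isClosed_iInter fun n => isClosed_iInter fun _ => ?_) ?_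
    · exact isClosed_eq ((continuous_apply n).comp (continuous_subtype_val.comp continuous_fst))
        ((continuous_apply n).comp (continuous_subtype_val.comp continuous_snd))
    · exact isClosed_le continuous_const
        ((hF.comp continuous_fst).sub (hF.comp continuous_snd)).norm
  obtain ⟨p, hp⟩ := IsCompact.nonempty_iInter_of_sequence_nonempty_isCompact_isClosed C
    (fun N p hp => ⟨fun n hn => hp.1 n (by omega), hp.2⟩)
    (fun N => by
      obtain ⟨x, x', h1, h2⟩ := hcon N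
      exact ⟨(x, x'), h1, h2⟩) (hcl 0).isCompact hcl
  rw [mem_iInter] at hp
  have h1 : p.1 = p.2 := by
    apply Subtype.ext
    funext n
    exact (hp n).1 n le_rfl
  have h2 := (hp 0).2
  rw [h1, sub_self, norm_zero] at h2
  linarith

/-- Strong convergence to the identity is uniform on compact sets. -/
theorem uniform_on_compact {E : Type} [NormedAddCommGroup E] [NormedSpace ℝ E] [CompleteSpace E]
    (S : ℕ → E →L[ℝ] E) (hS : ∀ y, Tendsto (fun n => S n y) atTop (𝓝 y))
    (K : Set E) (hK : IsCompact K) (ε : ℝ) (hε : 0 < ε) : ∃ n, ∀ y ∈ K, ‖S n y - y‖ < ε := by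
  obtain ⟨C, hC⟩ := banach_steinhaus (g := S) (fun y => by
    obtain ⟨C, hC⟩ := ((hS y).norm.bddAbove_range)
    exact ⟨C, fun n => hC ⟨n, rfl⟩⟩)
  have hC0 : 0 ≤ C := (norm_nonneg _).trans (hC 0)
  set δ : ℝ := ε / (2 * (C + 2)) with hδ
  have hδ0 : 0 < δ := by positivity
  obtain ⟨t, ht, hcov⟩ := hK.finite_cover_balls hδ0
  have h1 : ∀ᶠ n in atTop, ∀ y ∈ t, ‖S n y - y‖ < ε / 2 := by
    rw [hcov.1.eventually_all]
    intro y _
    have h2 := (hS y).sub_const y
    rw [sub_self] at h2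
    exact (h2.norm.eventually_lt_const (by rw [norm_zero]; positivity))
  obtain ⟨n, hn⟩ := h1.exists
  refine ⟨n, fun y hy => ?_⟩
  obtain ⟨z, hz, hyz⟩ := mem_iUnion₂.1 (hcov.2 hy)
  rw [mem_ball_iff_norm] at hyz
  have e : S n y - y = S n (y - z) + (S n z - z) - (y - z) := by
    rw [map_sub]; abel
  rw [e]
  have h3 : ‖S n (y - z)‖ ≤ C * δ := by
    refine ((S n).le_opNorm _).trans ?_
    exact mul_le_mul (hC n) hyz.le (norm_nonneg _) hC0
  have h4 : (C + 2) * δ = ε / 2 := by
    rw [hδ]; field_simp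
  calc _ ≤ ‖S n (y - z)‖ + ‖S n z - z‖ + ‖y - z‖ :=
        (norm_sub_le _ _).trans (add_le_add_left (norm_add_le _ _) _)
    _ < C * δ + ε / 2 + δ := by linarith [hn z hz]
    _ ≤ ε := by nlinarith

end Pool.Agent.D0H27.CAP
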