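import Pool.Agent.D0H27.CAP.Main1

/-!
The affine Baire hierarchy.
-/

set_option autoImplicit false

open Set Filter Topology

namespace Pool.Agent.D0H27.CAP

open Pool.Agent.R884.AffB (IsAffine IsBaireOne IsAffineOne HasAP)

/-- The affine Baire maps `X → E`: the smallest family of maps which contains the continuous affine
maps and is closed under pointwise limits of sequences (the union of all the affine Baire classes
`𝔄_α(X,E)`, `α < ω₁`). -/
inductive AffineBaire {V : Type*} [AddCommGroup V] [Module ℝ V] [TopologicalSpace V] (X : Set V)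
    {E : Type*} [NormedAddCommGroup E] [NormedSpace ℝ E] : (X → E) → Prop
  | base (f : X → E) : Continuous f → IsAffine X f → AffineBaire X f
  | lim (F : ℕ → X → E) (f : X → E) : (∀ n, AffineBaire X (F n)) →
      (∀ x, Tendsto (fun n => F n x) atTop (𝓝 (f x))) → AffineBaire X f

section

variable {V : Type*} [AddCommGroup V] [Module ℝ V] [TopologicalSpace V] {X : Set V}
  {E : Type*} [NormedAddCommGroup E] [NormedSpace ℝ E]

lemma IsAffine.limit {F : ℕ → X → E} {f : X → E} (hF : ∀ n, IsAffine X (F n))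
    (h : ∀ x, Tendsto (fun n => F n x) atTop (𝓝 (f x))) : IsAffine X f := by
  intro x y z t h0 h1 hz
  have h2 := ((h x).const_smul t).add ((h y).const_smul (1 - t))
  refine tendsto_nhds_unique (h z) (h2.congr fun n => ?_)
  exact (hF n x y z t h0 h1 hz).symm

lemma AffineBaire.isAffine {f : X → E} (h : AffineBaire X f) : IsAffine X f := by
  induction h with
  | base f _ ha => exact ha
  | lim F f _ hl ih => exact IsAffine.limit ih hl

lemma AffineBaire.clm_comp {E' : Type*} [NormedAddCommGroup E'] [NormedSpace ℝ E'] {f : X → E}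
    (h : AffineBaire X f) (A : E →L[ℝ] E') : AffineBaire X (fun x => A (f x)) := by
  induction h with
  | base f hc ha =>
    refine AffineBaire.base _ (A.continuous.comp hc) fun x y z t h0 h1 hz => ?_
    show A (f z) = t • A (f x) + (1 - t) • A (f y)
    rw [ha x y z t h0 h1 hz, map_add, map_smul, map_smul]
  | lim F f _ hl ih => exact AffineBaire.lim _ _ ih fun x => (A.continuous.tendsto _).comp (hl x)

lemma IsAffineOne.affineBaire {f : X → E} (h : IsAffineOne X univ f) : AffineBaire X f := by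
  obtain ⟨_, F, hc, ha, _, hl⟩ := h
  exact AffineBaire.lim F f (fun n => AffineBaire.base _ (hc n) (ha n)) hl

end

/-- strong convergence is uniform on compact sets -/
theorem uniform_on_compact' {E F : Type*} [NormedAddCommGroup E] [NormedSpace ℝ E]
    [CompleteSpace E] [NormedAddCommGroup F] [NormedSpace ℝ F]
    (S : ℕ → E →L[ℝ] F) (L : E →L[ℝ] F) (hS : ∀ y, Tendsto (fun n => S n y) atTop (𝓝 (L y)))
    (K : Set E) (hK : IsCompact K) (ε : ℝ) (hε : 0 < ε) : ∃ n, ∀ y ∈ K, ‖S n y - L y‖ < ε := by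
  obtain ⟨C, hC⟩ := banach_steinhaus (g := S) (fun y => by
    obtain ⟨C, hC⟩ := ((hS y).norm.bddAbove_range)
    exact ⟨C, fun n => hC ⟨n, rfl⟩⟩)
  have hC0 : 0 ≤ C := (norm_nonneg _).trans (hC 0)
  set δ : ℝ := ε / (2 * (C + ‖L‖ + 1)) with hδ
  have hL0 : 0 ≤ ‖L‖ := norm_nonneg _
  have hδ0 : 0 < δ := by positivity
  obtain ⟨t, ht, hcov⟩ := hK.finite_cover_balls hδ0
  have h1 : ∀ᶠ n in atTop, ∀ y ∈ t, ‖S n y - L y‖ < ε / 2 := by
    rw [hcov.1.eventually_all]
    intro y _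
    have h2 := (hS y).sub_const (L y)
    rw [sub_self] at h2
    exact (h2.norm.eventually_lt_const (by rw [norm_zero]; positivity))
  obtain ⟨n, hn⟩ := h1.exists
  refine ⟨n, fun y hy => ?_⟩
  obtain ⟨z, hz, hyz⟩ := mem_iUnion₂.1 (hcov.2 hy)
  rw [mem_ball_iff_norm] at hyz
  have e : S n y - L y = S n (y - z) + (S n z - L z) - L (y - z) := by
    rw [map_sub, map_sub]; abel
  rw [e]
  have h3 : ‖S n (y - z)‖ ≤ C * δ := by
    refine ((S n).le_opNorm _).trans ?_
    exact mul_le_mul (hC n) hyz.le (norm_nonneg _) hC0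
  have h3' : ‖L (y - z)‖ ≤ ‖L‖ * δ := by
    refine (L.le_opNorm _).trans ?_
    exact mul_le_mul_of_nonneg_left hyz.le hL0
  have h4 : (C + ‖L‖ + 1) * δ = ε / 2 := by
    rw [hδ]; field_simp
  calc _ ≤ ‖S n (y - z)‖ + ‖S n z - L z‖ + ‖L (y - z)‖ :=
        (norm_sub_le _ _).trans (add_le_add_left (norm_add_le _ _) _)
    _ < C * δ + ε / 2 + ‖L‖ * δ := by linarith [hn z hz]
    _ ≤ ε := by nlinarith

/-- a linear map bounded on the unit ball -/
lemma bound_of_ball {E F : Type*} [NormedAddCommGroup E] [NormedSpace ℝ E]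
    [NormedAddCommGroup F] [NormedSpace ℝ F] (D : E →ₗ[ℝ] F) (c : ℝ)
    (h : ∀ y, ‖y‖ ≤ 1 → ‖D y‖ ≤ c) (y : E) : ‖D y‖ ≤ c * ‖y‖ := by
  rcases eq_or_ne y 0 with h0 | h0
  · rw [h0, map_zero, norm_zero, norm_zero, mul_zero]
  · have hn : 0 < ‖y‖ := norm_pos_iff.2 h0
    have h1 := h (‖y‖⁻¹ • y) (by
      rw [norm_smul, norm_inv, norm_norm, inv_mul_cancel₀ hn.ne'])
    rw [map_smul, norm_smul, norm_inv, norm_norm, inv_mul_le_iff₀ hn] at h1
    linarith

namespace Tower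

variable {E : Type} [NormedAddCommGroup E] [NormedSpace ℝ E] [CompleteSpace E] (T : Tower E)

/-- `L` is the linear part of `g` on the diagonal -/
def IsLin (g : T.X → E) (L : E → E) : Prop := ∀ y (hy : ‖y‖ ≤ 1),
  L y = (1 / 2 : ℝ) • (g ⟨T.J y, T.J_mem hy⟩ - g ⟨T.J (-y), T.J_mem (by rwa [norm_neg])⟩)

lemma J_comb (y y' : E) (s t : ℝ) : T.J (s • y + t • y') = s • T.J y + t • T.J y' := by
  funext n
  show T.q n (s • y + t • y') = s • T.q n y + t • T.q n y'
  rw [map_add, map_smul, map_smul]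

lemma exists_lin (g : T.X → E) (ha : IsAffine T.X g) : ∃ L : E →ₗ[ℝ] E, T.IsLin g L := by
  let h : E → E := fun y => if hy : ‖y‖ ≤ 1 then
    (1 / 2 : ℝ) • (g ⟨T.J y, T.J_mem hy⟩ - g ⟨T.J (-y), T.J_mem (by rwa [norm_neg])⟩) else 0
  have he : ∀ y (hy : ‖y‖ ≤ 1), h y = (1 / 2 : ℝ) • (g ⟨T.J y, T.J_mem hy⟩ -
      g ⟨T.J (-y), T.J_mem (by rwa [norm_neg])⟩) := fun y hy => dif_pos hy
  obtain ⟨L, hL⟩ := exists_linear h (fun x y hx hy t ht0 ht1 => by
    have hz : ‖t • x + (1 - t) • y‖ ≤ 1 := by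
      refine (norm_add_le _ _).trans ?_
      rw [norm_smul, norm_smul, Real.norm_of_nonneg ht0, Real.norm_of_nonneg (by linarith)]
      nlinarith
    rw [he _ hz, he x hx, he y hy]
    have e1 := ha ⟨T.J x, T.J_mem hx⟩ ⟨T.J y, T.J_mem hy⟩
      ⟨T.J (t • x + (1 - t) • y), T.J_mem hz⟩ t ht0 ht1 (T.J_comb _ _ _ _)
    have e2 := ha ⟨T.J (-x), T.J_mem (by rwa [norm_neg])⟩
      ⟨T.J (-y), T.J_mem (by rwa [norm_neg])⟩
      ⟨T.J (-(t • x + (1 - t) • y)), T.J_mem (by rwa [norm_neg])⟩ t ht0 ht1 (by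
        show T.J (-(t • x + (1 - t) • y)) = t • T.J (-x) + (1 - t) • T.J (-y)
        rw [← T.J_comb]
        congr 1
        rw [smul_neg, smul_neg, neg_add])
    rw [e1, e2]
    module) (fun y hy => by
    rw [he y hy, he (-y) (by rwa [norm_neg]), ← smul_neg, neg_sub]
    simp only [neg_neg])
  exact ⟨L, fun y hy => (hL y hy).trans (he y hy)⟩

lemma exists_trunc (g : T.X → E) (ha : IsAffine T.X g) (N : ℕ) :
    ∃ L : E →ₗ[ℝ] E, (∀ y ∈ T.K N, L y = 0) ∧ ∀ y (hy : ‖y‖ ≤ 1),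
      L y = (1 / 2 : ℝ) • (g ⟨T.tr N y, T.tr_mem N hy⟩ -
        g ⟨T.tr N (-y), T.tr_mem N (by rwa [norm_neg])⟩) := by
  let h : E → E := fun y => if hy : ‖y‖ ≤ 1 then
    (1 / 2 : ℝ) • (g ⟨T.tr N y, T.tr_mem N hy⟩ -
      g ⟨T.tr N (-y), T.tr_mem N (by rwa [norm_neg])⟩) else 0
  have he : ∀ y (hy : ‖y‖ ≤ 1), h y = (1 / 2 : ℝ) • (g ⟨T.tr N y, T.tr_mem N hy⟩ -
      g ⟨T.tr N (-y), T.tr_mem N (by rwa [norm_neg])⟩) := fun y hy => dif_pos hy
  obtain ⟨L, hL⟩ := exists_linear h (fun x y hx hy t ht0 ht1 => by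
    have hz : ‖t • x + (1 - t) • y‖ ≤ 1 := by
      refine (norm_add_le _ _).trans ?_
      rw [norm_smul, norm_smul, Real.norm_of_nonneg ht0, Real.norm_of_nonneg (by linarith)]
      nlinarith
    rw [he _ hz, he x hx, he y hy]
    have e1 := ha ⟨T.tr N x, T.tr_mem N hx⟩ ⟨T.tr N y, T.tr_mem N hy⟩
      ⟨T.tr N (t • x + (1 - t) • y), T.tr_mem N hz⟩ t ht0 ht1 (T.tr_comb _ _ _ _ _)
    have e2 := ha ⟨T.tr N (-x), T.tr_mem N (by rwa [norm_neg])⟩
      ⟨T.tr N (-y), T.tr_mem N (by rwa [norm_neg])⟩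
      ⟨T.tr N (-(t • x + (1 - t) • y)), T.tr_mem N (by rwa [norm_neg])⟩ t ht0 ht1 (by
        show T.tr N (-(t • x + (1 - t) • y)) = t • T.tr N (-x) + (1 - t) • T.tr N (-y)
        rw [← T.tr_comb]
        congr 1
        rw [smul_neg, smul_neg, neg_add])
    rw [e1, e2]
    module) (fun y hy => by
    rw [he y hy, he (-y) (by rwa [norm_neg]), ← smul_neg, neg_sub]
    simp only [neg_neg])
  refine ⟨L, fun y hy => ?_, fun y hy => (hL y hy).trans (he y hy)⟩
  -- scale into the ball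
  have hc : (0 : ℝ) < ‖y‖ + 1 := by positivity
  set y1 : E := (‖y‖ + 1)⁻¹ • y with hy1
  have hy1n : ‖y1‖ ≤ 1 := by
    rw [hy1, norm_smul, norm_inv, Real.norm_of_nonneg hc.le, inv_mul_le_iff₀ hc]
    linarith
  have hy1K : y1 ∈ T.K N := Submodule.smul_mem _ _ hy
  have ht : T.tr N y1 = T.tr N (-y1) := by
    funext m
    unfold tr
    split_ifs with hm
    · have h1 : T.q m y1 = 0 := (T.q_eq_zero m y1).2 (T.anti_le hm hy1K)
      rw [map_neg, h1, neg_zero]
    · rfl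
  have h1 : L y1 = 0 := by
    rw [hL y1 hy1n, he y1 hy1n]
    have : (⟨T.tr N y1, T.tr_mem N hy1n⟩ : T.X) =
        ⟨T.tr N (-y1), T.tr_mem N (by rwa [norm_neg])⟩ := Subtype.ext ht
    rw [this, sub_self, smul_zero]
  have h2 : y = (‖y‖ + 1) • y1 := by
    rw [hy1, smul_smul, mul_inv_cancel₀ hc.ne', one_smul]
  rw [h2, map_smul, h1, smul_zero]

/-- approximable on compact sets by finite rank operators -/
def Appr (L : E →L[ℝ] E) : Prop := ∀ K : Set E, IsCompact K → ∀ ε : ℝ, 0 < ε →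
  ∃ S : E →L[ℝ] E, FiniteDimensional ℝ (LinearMap.range (S : E →ₗ[ℝ] E)) ∧
    ∀ y ∈ K, ‖S y - L y‖ < ε

theorem appr_of_affineBaire (g : T.X → E) (hg : AffineBaire T.X g) :
    ∃ L : E →L[ℝ] E, T.IsLin g L ∧ Appr L := by
  induction hg with
  | base g hc ha =>
    obtain ⟨L, hL⟩ := T.exists_lin g ha
    -- approximation on the ball
    have key : ∀ ε : ℝ, 0 < ε → ∃ S : E →L[ℝ] E,
        FiniteDimensional ℝ (LinearMap.range (S : E →ₗ[ℝ] E)) ∧
        ∀ y, ‖S y - L y‖ ≤ ε * ‖y‖ := by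
      intro ε hε
      obtain ⟨N, hN⟩ := finite_coord T.X T.isCompact_X g hc ε hε
      obtain ⟨S, hS0, hS⟩ := T.exists_trunc g ha N
      obtain ⟨h1, h2⟩ := T.finite_rank N S hS0
      refine ⟨⟨S, h1⟩, h2, fun y => ?_⟩
      refine bound_of_ball (S - L) ε (fun y hy => ?_) y
      have hy' : ‖-y‖ ≤ 1 := by rwa [norm_neg]
      rw [LinearMap.sub_apply, hS y hy, hL y hy]
      have e1 := hN ⟨T.tr N y, T.tr_mem N hy⟩ ⟨T.J y, T.J_mem hy⟩ (fun m hm => if_pos hm)
      have e2 := hN ⟨T.tr N (-y), T.tr_mem N hy'⟩ ⟨T.J (-y), T.J_mem hy'⟩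
        (fun m hm => if_pos hm)
      rw [← smul_sub, norm_smul, Real.norm_of_nonneg (by norm_num)]
      have e3 : g ⟨T.tr N y, T.tr_mem N hy⟩ - g ⟨T.tr N (-y), T.tr_mem N hy'⟩ -
          (g ⟨T.J y, T.J_mem hy⟩ - g ⟨T.J (-y), T.J_mem hy'⟩) =
          (g ⟨T.tr N y, T.tr_mem N hy⟩ - g ⟨T.J y, T.J_mem hy⟩) -
          (g ⟨T.tr N (-y), T.tr_mem N hy'⟩ - g ⟨T.J (-y), T.J_mem hy'⟩) := by abel
      rw [e3]
      have e4 := norm_sub_le (g ⟨T.tr N y, T.tr_mem N hy⟩ - g ⟨T.J y, T.J_mem hy⟩)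
        (g ⟨T.tr N (-y), T.tr_mem N hy'⟩ - g ⟨T.J (-y), T.J_mem hy'⟩)
      linarith
    have hLc : Continuous L := by
      obtain ⟨S, _, hS⟩ := key 1 one_pos
      refine AddMonoidHomClass.continuous_of_bound L (‖S‖ + 1) fun y => ?_
      have h1 := S.le_opNorm y
      have h2 := hS y
      have h3 : ‖L y‖ ≤ ‖S y‖ + ‖S y - L y‖ := by
        have := norm_sub_norm_le (L y) (S y)
        rw [norm_sub_rev] at this
        linarith
      linarith
    refine ⟨⟨L, hLc⟩, hL, fun K hK ε hε => ?_⟩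
    obtain ⟨R, hR⟩ := hK.isBounded.exists_norm_le
    obtain ⟨S, hSf, hS⟩ := key (ε / (2 * (|R| + 1))) (by positivity)
    refine ⟨S, hSf, fun y hy => ?_⟩
    refine lt_of_le_of_lt (hS y) ?_
    have h1 : ‖y‖ ≤ |R| + 1 := (hR y hy).trans (by linarith [le_abs_self R])
    have h2 : 0 < |R| + 1 := by positivity
    calc ε / (2 * (|R| + 1)) * ‖y‖ ≤ ε / (2 * (|R| + 1)) * (|R| + 1) :=
          mul_le_mul_of_nonneg_left h1 (by positivity)
      _ = ε / 2 := by field_simp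
      _ < ε := by linarith
  | lim F g hF hl ih =>
    choose L hL hLa using ih
    have ha : IsAffine T.X g := IsAffine.limit (fun n => (hF n).isAffine) hl
    obtain ⟨M, hM⟩ := T.exists_lin g ha
    have hball : ∀ y, ‖y‖ ≤ 1 → Tendsto (fun n => L n y) atTop (𝓝 (M y)) := by
      intro y hy
      have hy' : ‖-y‖ ≤ 1 := by rwa [norm_neg]
      have h1 := ((hl ⟨T.J y, T.J_mem hy⟩).sub (hl ⟨T.J (-y), T.J_mem hy'⟩)).const_smul
        (1 / 2 : ℝ)
      rw [← hM y hy] at h1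
      refine h1.congr fun n => ?_
      exact (hL n y hy).symm
    have hall : ∀ y, Tendsto (fun n => L n y) atTop (𝓝 (M y)) := by
      intro y
      have hc : (0 : ℝ) < ‖y‖ + 1 := by positivity
      have hy1n : ‖(‖y‖ + 1)⁻¹ • y‖ ≤ 1 := by
        rw [norm_smul, norm_inv, Real.norm_of_nonneg hc.le, inv_mul_le_iff₀ hc]
        linarith
      have h1 := (hball _ hy1n).const_smul (‖y‖ + 1)
      rw [map_smul, smul_smul, mul_inv_cancel₀ hc.ne', one_smul] at h1
      refine h1.congr fun n => ?_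
      rw [map_smul, smul_smul, mul_inv_cancel₀ hc.ne', one_smul]
    let M' : E →L[ℝ] E := continuousLinearMapOfTendsto L (f := fun y => M y)
      (tendsto_pi_nhds.2 hall)
    have hM' : ∀ y, M' y = M y := fun y => rfl
    refine ⟨M', fun y hy => ?_, fun K hK ε hε => ?_⟩
    · rw [hM', hM y hy]
    · obtain ⟨n, hn⟩ := uniform_on_compact' L M' hall K hK (ε / 2) (by positivity)
      obtain ⟨S, hSf, hS⟩ := hLa n K hK (ε / 2) (by positivity)
      refine ⟨S, hSf, fun y hy => ?_⟩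
      have e : S y - M' y = (S y - L n y) + (L n y - M' y) := by abel
      rw [e]
      refine lt_of_le_of_lt (norm_add_le _ _) ?_
      linarith [hn y hy, hS y hy]

/-- If the limit map is affine Baire, the space has the approximation property. -/
theorem hasAP_of_affineBaire (h : AffineBaire T.X T.f) : HasAP ℝ E := by
  obtain ⟨L, hL, hA⟩ := T.appr_of_affineBaire T.f h
  have hid : ∀ y, L y = y := by
    have h1 : ∀ y, ‖y‖ ≤ 1 → L y = y := by
      intro y hy
      rw [hL y hy, T.f_J hy, T.f_J (by rwa [norm_neg])]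
      module
    intro y
    have hc : (0 : ℝ) < ‖y‖ + 1 := by positivity
    have hy1n : ‖(‖y‖ + 1)⁻¹ • y‖ ≤ 1 := by
      rw [norm_smul, norm_inv, Real.norm_of_nonneg hc.le, inv_mul_le_iff₀ hc]
      linarith
    have h2 := congrArg (fun z => (‖y‖ + 1) • z) (h1 _ hy1n)
    simp only [map_smul] at h2
    rwa [smul_smul, smul_smul, mul_inv_cancel₀ hc.ne', one_smul, one_smul] at h2
  intro K hK ε hε
  obtain ⟨S, hSf, hS⟩ := hA K hK ε hε
  refine ⟨S, hSf, fun x hx => ?_⟩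
  have := hS x hx
  rwa [hid] at this

end Tower

end Pool.Agent.D0H27.CAP
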