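import Pool.Agent.D0H27.CAP.Thread
import Pool.Agent.D0H27.CAP.Ext
import Pool.Agent.R884.AffB.Main

/-!
The limit map of the threads is of the first Baire class; if it is a pointwise limit of continuous
affine maps, then the identity is the strong limit of finite rank operators.
-/

set_option autoImplicit false

open Set Filter Topology

namespace Pool.Agent.D0H27.CAP

open Pool.Agent.R884.AffB (IsAffine IsBaireOne IsAffineOne)

namespace Tower

variable {E : Type} [NormedAddCommGroup E] [NormedSpace ℝ E] [CompleteSpace E] (T : Tower E)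

theorem isAffine_f : IsAffine T.X T.f := fun x y z t h0 h1 h => T.affine_f x y z t h0 h1 h

theorem isBaireOne_f : IsBaireOne T.X univ T.f := by
  refine ⟨fun _ => mem_univ _, ?_⟩
  choose L hLc hL using fun n : ℕ => T.exists_lift n (1 / ((n : ℝ) + 1)) (by positivity)
  refine ⟨fun n x => L n ((x : T.V) n), fun n => ?_, fun _ _ => mem_univ _, fun x => ?_⟩
  · exact (hLc n).comp ((continuous_apply n).comp continuous_subtype_val)
  · obtain ⟨r, hr, hr0⟩ := T.exists_null (T.f x) x (T.f_spec x)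
    refine T.kk (T.f x) _ r (fun n => ?_) hr0 (fun ε hε => ?_)
    · rw [← T.q_eq_zero, map_sub, map_sub, (hL n _).1, hr]
      abel
    · have h1 := (T.f_spec x).add (tendsto_one_div_add_atTop_nhds_zero_nat (𝕜 := ℝ))
      rw [add_zero] at h1
      filter_upwards [h1.eventually_lt_const hε] with n hn
      refine (hL n _).2.le.trans ?_
      have h2 : ‖(x : T.V) n‖ ≤ ‖T.q n (T.f x)‖ + ‖T.q n (T.f x) - (x : T.V) n‖ := by
        have := norm_sub_norm_le ((x : T.V) n) (T.q n (T.f x))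
        rw [norm_sub_rev] at this
        linarith
      have h3 := T.norm_q_le n (T.f x)
      linarith

/-- the truncated diagonal -/
def tr (N : ℕ) (y : E) : T.V := fun n => if n ≤ N then T.q n y else 0

lemma tr_mem (N : ℕ) {y : E} (hy : ‖y‖ ≤ 1) : T.tr N y ∈ T.X := by
  refine ⟨fun n => ?_, fun M => ?_⟩
  · unfold tr
    split_ifs
    · exact (T.norm_q_le n y).trans hy
    · rw [norm_zero]; exact zero_le_one
  · have h1 : ∀ n, ‖T.r n (T.tr N y (n + 1)) - T.tr N y n‖ ≤ if n = N then 1 else 0 := by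
      intro n
      unfold tr
      rcases lt_trichotomy n N with h | h | h
      · rw [if_pos (by omega), if_pos h.le, if_neg h.ne, r_q, sub_self, norm_zero]
      · rw [if_neg (by omega), if_pos h.le, if_pos h, map_zero, zero_sub, norm_neg]
        exact (T.norm_q_le n y).trans hy
      · rw [if_neg (by omega), if_neg (by omega), if_neg (by omega), map_zero, sub_self, norm_zero]
    refine (Finset.sum_le_sum fun n _ => h1 n).trans ?_
    rw [Finset.sum_ite_eq' (Finset.range M) N]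
    split_ifs <;> norm_num

lemma tr_comb (N : ℕ) (y y' : E) (s t : ℝ) : T.tr N (s • y + t • y') =
    s • T.tr N y + t • T.tr N y' := by
  funext n
  show (if n ≤ N then T.q n (s • y + t • y') else 0) =
    s • (if n ≤ N then T.q n y else 0) + t • (if n ≤ N then T.q n y' else 0)
  split_ifs
  · rw [map_add, map_smul, map_smul]
  · simp

lemma anti_le {m n : ℕ} (h : m ≤ n) : T.K n ≤ T.K m := by
  induction n, h using Nat.le_induction with
  | base => exact le_rfl
  | succ n _ ih => exact (T.anti n).trans ih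

/-- a linear map vanishing on one of the subspaces is continuous of finite rank -/
lemma finite_rank (N : ℕ) (L : E →ₗ[ℝ] E) (hL : ∀ y ∈ T.K N, L y = 0) :
    Continuous L ∧ FiniteDimensional ℝ (LinearMap.range L) := by
  have hk : T.K N ≤ LinearMap.ker L := fun y hy => hL y hy
  set M : T.G N →ₗ[ℝ] E := (T.K N).liftQ L hk with hM
  have e : ∀ y, L y = M (T.q N y) := fun y => by
    rw [hM]
    exact ((T.K N).liftQ_apply L y).symm
  have hq : Continuous (T.q N) :=
    AddMonoidHomClass.continuous_of_bound (T.q N) 1 (fun y => by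
      rw [one_mul]; exact T.norm_q_le N y)
  refine ⟨?_, ?_⟩
  · have : (L : E → E) = fun y => M (T.q N y) := funext e
    rw [this]
    exact (LinearMap.continuous_of_finiteDimensional M).comp hq
  · have h1 : LinearMap.range L ≤ LinearMap.range M := by
      rintro _ ⟨y, rfl⟩
      exact ⟨T.q N y, (e y).symm⟩
    exact Submodule.finiteDimensional_of_le h1

theorem finite_rank_of_affineOne (h : IsAffineOne T.X univ T.f) :
    ∃ S : ℕ → E →L[ℝ] E, (∀ n, FiniteDimensional ℝ (LinearMap.range (S n : E →ₗ[ℝ] E))) ∧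
      ∀ y, Tendsto (fun n => S n y) atTop (𝓝 y) := by
  obtain ⟨_, F, hFc, hFa, _, hlim⟩ := h
  choose N hN using fun n : ℕ => finite_coord T.X T.isCompact_X (F n) (hFc n)
    (1 / ((n : ℝ) + 1)) (by positivity)
  -- the maps on the ball
  let hh : ℕ → E → E := fun n y => if hy : ‖y‖ ≤ 1 then
    (1 / 2 : ℝ) • (F n ⟨T.tr (N n) y, T.tr_mem (N n) hy⟩ -
      F n ⟨T.tr (N n) (-y), T.tr_mem (N n) (by rwa [norm_neg])⟩) else 0
  have hhe : ∀ n y (hy : ‖y‖ ≤ 1), hh n y =
      (1 / 2 : ℝ) • (F n ⟨T.tr (N n) y, T.tr_mem (N n) hy⟩ -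
      F n ⟨T.tr (N n) (-y), T.tr_mem (N n) (by rwa [norm_neg])⟩) := fun n y hy => dif_pos hy
  have hodd : ∀ n y, ‖y‖ ≤ 1 → hh n (-y) = - hh n y := by
    intro n y hy
    rw [hhe n y hy, hhe n (-y) (by rwa [norm_neg]), ← smul_neg, neg_sub]
    simp only [neg_neg]
  have haff : ∀ n (x y : E), ‖x‖ ≤ 1 → ‖y‖ ≤ 1 → ∀ t : ℝ, 0 ≤ t → t ≤ 1 →
      hh n (t • x + (1 - t) • y) = t • hh n x + (1 - t) • hh n y := by
    intro n x y hx hy t ht0 ht1
    have hz : ‖t • x + (1 - t) • y‖ ≤ 1 := by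
      refine (norm_add_le _ _).trans ?_
      rw [norm_smul, norm_smul, Real.norm_of_nonneg ht0, Real.norm_of_nonneg (by linarith)]
      nlinarith
    rw [hhe n _ hz, hhe n x hx, hhe n y hy]
    have e1 := hFa n ⟨T.tr (N n) x, T.tr_mem (N n) hx⟩ ⟨T.tr (N n) y, T.tr_mem (N n) hy⟩
      ⟨T.tr (N n) (t • x + (1 - t) • y), T.tr_mem (N n) hz⟩ t ht0 ht1 (T.tr_comb _ _ _ _ _)
    have e2 := hFa n ⟨T.tr (N n) (-x), T.tr_mem (N n) (by rwa [norm_neg])⟩
      ⟨T.tr (N n) (-y), T.tr_mem (N n) (by rwa [norm_neg])⟩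
      ⟨T.tr (N n) (-(t • x + (1 - t) • y)), T.tr_mem (N n) (by rwa [norm_neg])⟩ t ht0 ht1 (by
        show T.tr (N n) (-(t • x + (1 - t) • y)) = t • T.tr (N n) (-x) + (1 - t) • T.tr (N n) (-y)
        rw [← T.tr_comb]
        congr 1
        rw [smul_neg, smul_neg, neg_add])
    rw [e1, e2]
    module
  choose L hL using fun n => exists_linear (hh n) (haff n) (hodd n)
  have hker : ∀ n, ∀ y ∈ T.K (N n), L n y = 0 := by
    intro n y hy
    -- scale into the ball
    have hc : (0 : ℝ) < ‖y‖ + 1 := by positivity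
    set y1 : E := (‖y‖ + 1)⁻¹ • y with hy1
    have hy1n : ‖y1‖ ≤ 1 := by
      rw [hy1, norm_smul, norm_inv, Real.norm_of_nonneg hc.le, inv_mul_le_iff₀ hc]
      linarith
    have hy1K : y1 ∈ T.K (N n) := Submodule.smul_mem _ _ hy
    have ht : T.tr (N n) y1 = T.tr (N n) (-y1) := by
      funext m
      unfold tr
      split_ifs with hm
      · have h1 : T.q m y1 = 0 := (T.q_eq_zero m y1).2 (T.anti_le hm hy1K)
        rw [map_neg, h1, neg_zero]
      · rfl
    have h1 : L n y1 = 0 := by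
      rw [hL n y1 hy1n, hhe n y1 hy1n]
      have : (⟨T.tr (N n) y1, T.tr_mem (N n) hy1n⟩ : T.X) =
          ⟨T.tr (N n) (-y1), T.tr_mem (N n) (by rwa [norm_neg])⟩ := Subtype.ext ht
      rw [this, sub_self, smul_zero]
    have h2 : y = (‖y‖ + 1) • y1 := by
      rw [hy1, smul_smul, mul_inv_cancel₀ hc.ne', one_smul]
    rw [h2, map_smul, h1, smul_zero]
  refine ⟨fun n => ⟨L n, (T.finite_rank (N n) (L n) (hker n)).1⟩,
    fun n => (T.finite_rank (N n) (L n) (hker n)).2, ?_⟩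
  -- convergence on the ball
  have hball : ∀ y, ‖y‖ ≤ 1 → Tendsto (fun n => L n y) atTop (𝓝 y) := by
    intro y hy
    have hy' : ‖-y‖ ≤ 1 := by rwa [norm_neg]
    have h1 := (hlim ⟨T.J y, T.J_mem hy⟩).sub (hlim ⟨T.J (-y), T.J_mem hy'⟩)
    rw [T.f_J hy, T.f_J hy'] at h1
    have h2 := h1.const_smul (1 / 2 : ℝ)
    have e : (1 / 2 : ℝ) • (y - -y) = y := by module
    rw [e] at h2
    have h3 : Tendsto (fun n => L n y - (1 / 2 : ℝ) • (F n ⟨T.J y, T.J_mem hy⟩ -
        F n ⟨T.J (-y), T.J_mem hy'⟩)) atTop (𝓝 0) := by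
      rw [tendsto_zero_iff_norm_tendsto_zero]
      refine squeeze_zero (fun n => norm_nonneg _) (fun n => ?_)
        (tendsto_one_div_add_atTop_nhds_zero_nat (𝕜 := ℝ))
      rw [hL n y hy, hhe n y hy]
      have e1 := hN n ⟨T.tr (N n) y, T.tr_mem (N n) hy⟩ ⟨T.J y, T.J_mem hy⟩ (fun m hm => if_pos hm)
      have e2 := hN n ⟨T.tr (N n) (-y), T.tr_mem (N n) hy'⟩ ⟨T.J (-y), T.J_mem hy'⟩
        (fun m hm => if_pos hm)
      rw [← smul_sub, norm_smul, Real.norm_of_nonneg (by norm_num)]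
      have e3 : F n ⟨T.tr (N n) y, T.tr_mem (N n) hy⟩ - F n ⟨T.tr (N n) (-y), T.tr_mem (N n) hy'⟩ -
          (F n ⟨T.J y, T.J_mem hy⟩ - F n ⟨T.J (-y), T.J_mem hy'⟩) =
          (F n ⟨T.tr (N n) y, T.tr_mem (N n) hy⟩ - F n ⟨T.J y, T.J_mem hy⟩) -
          (F n ⟨T.tr (N n) (-y), T.tr_mem (N n) hy'⟩ - F n ⟨T.J (-y), T.J_mem hy'⟩) := by abel
      rw [e3]
      have e4 := norm_sub_le (F n ⟨T.tr (N n) y, T.tr_mem (N n) hy⟩ - F n ⟨T.J y, T.J_mem hy⟩)
        (F n ⟨T.tr (N n) (-y), T.tr_mem (N n) hy'⟩ - F n ⟨T.J (-y), T.J_mem hy'⟩)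
      linarith
    have h4 := h3.add h2
    rw [zero_add] at h4
    refine h4.congr fun n => ?_
    abel
  intro y
  have hc : (0 : ℝ) < ‖y‖ + 1 := by positivity
  have hy1n : ‖(‖y‖ + 1)⁻¹ • y‖ ≤ 1 := by
    rw [norm_smul, norm_inv, Real.norm_of_nonneg hc.le, inv_mul_le_iff₀ hc]
    linarith
  have h1 := (hball _ hy1n).const_smul (‖y‖ + 1)
  rw [smul_smul, mul_inv_cancel₀ hc.ne', one_smul] at h1
  refine h1.congr fun n => ?_
  show (‖y‖ + 1) • L n ((‖y‖ + 1)⁻¹ • y) = L n y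
  rw [map_smul, smul_smul, mul_inv_cancel₀ hc.ne', one_smul]

end Tower

end Pool.Agent.D0H27.CAP
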