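import Pool.Agent.Y277.NN.DB

/-!
The matrix: square zero, trace one, small rows, finite columns.
-/

set_option autoImplicit false

open Filter Topology Finset

namespace Pool.Agent.D0H27.CAP

open Pool.Agent.Y277.NN Pool.Agent.BAPp

/-- the combinatorial system -/
noncomputable def sy : Sys := Classical.choice exists_sys

/-- the matrix -/
noncomputable def am (g x : ℕ × ℕ) : ℝ := sy.A g x

/-- the bound of the entries of the rows of level `k` -/
noncomputable def bk (k : ℕ) : ℝ := 6 * ((k : ℝ) + 1) * Real.sqrt (2 ^ k) / 4 ^ k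

lemma bk_nonneg (k : ℕ) : 0 ≤ bk k := by unfold bk; positivity

lemma am_bound (g x : ℕ × ℕ) : |am g x| ≤ bk g.1 := by
  refine (sy.A_bound g x).trans ?_
  unfold Sys.bd
  split_ifs
  · exact le_rfl
  · exact bk_nonneg _

lemma am_row (g x : ℕ × ℕ) (h : ¬ g.2 < 2 ^ (g.1 + 2)) : am g x = 0 := by
  have h1 := sy.A_bound g x
  unfold Sys.bd at h1
  rw [if_neg h] at h1
  exact abs_eq_zero.1 (le_antisymm h1 (abs_nonneg _))

lemma am_col (g x : ℕ × ℕ) (h : ¬ x.2 < 2 ^ (x.1 + 2)) : am g x = 0 := sy.A_far g x (Or.inr h)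

lemma am_far (g x : ℕ × ℕ) (h : g.1 + 1 < x.1) : am g x = 0 := sy.A_far g x (Or.inl h)

lemma am_far' (g x : ℕ × ℕ) (h : x.1 + 1 < g.1) : am g x = 0 := by
  have h1 : ∀ i, ee sy.sg sy.tt (g.1 + 1) i x = 0 := by
    intro i
    unfold ee
    rw [if_neg (show ¬ x.1 = g.1 + 1 by omega), if_neg (show ¬ x.1 + 1 = g.1 + 1 by omega),
      ite_self]
  have h2 : ∀ i, ee sy.sg sy.tt g.1 i x = 0 := by
    intro i
    unfold ee
    rw [if_neg (show ¬ x.1 = g.1 by omega), if_neg (show ¬ x.1 + 1 = g.1 by omega), ite_self]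
  unfold am Sys.A Sys.K Sys.C phi
  rw [if_neg (show ¬ (g.1 = 0 ∧ g.2 < 4) by omega), add_zero]
  simp only [h1, h2, mul_zero, Finset.sum_const_zero, sub_self, ite_self]

/-- square zero, as finite sums -/
theorem am_sq (g x : ℕ × ℕ) : ∑ k ∈ range (x.1 + 2), ∑ i ∈ range (2 ^ (k + 2)),
    am g (k, i) * am (k, i) x = 0 := by
  have h1 := sy.A_sq g x
  have h2 : ∑ κ ∈ range (x.1 + 2) ×ˢ range (2 ^ (x.1 + 4)), am g κ * am κ x = 0 := by
    have h3 : HasSum (fun κ : ℕ × ℕ => am g κ * am κ x)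
        (∑ κ ∈ range (x.1 + 2) ×ˢ range (2 ^ (x.1 + 4)), am g κ * am κ x) :=
      hasSum_sum_of_ne_finset_zero (fun κ hκ => by
        rw [Finset.mem_product, mem_range, mem_range, not_and_or] at hκ
        by_cases hk : κ.1 < x.1 + 2
        · have h4 : ¬ κ.2 < 2 ^ (x.1 + 4) := by
            rcases hκ with h | h
            · exact absurd hk h
            · exact h
          rw [am_row κ x, mul_zero]
          intro h5
          apply h4
          exact lt_of_lt_of_le h5 (Nat.pow_le_pow_right (by norm_num) (by omega))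
        · rw [am_far' κ x (by omega), mul_zero])
    exact h3.unique h1
  rw [Finset.sum_product] at h2
  rw [← h2]
  refine Finset.sum_congr rfl fun k hk => ?_
  rw [mem_range] at hk
  refine Finset.sum_subset ?_ ?_
  · intro i hi
    rw [mem_range] at hi ⊢
    exact lt_of_lt_of_le hi (Nat.pow_le_pow_right (by norm_num) (by omega))
  · intro i _ hi
    rw [mem_range] at hi
    rw [am_row (k, i) x hi, mul_zero]

theorem am_diag (k : ℕ) : ∑ i ∈ range (2 ^ (k + 2)), am (k, i) (k, i) = if k = 0 then 1 else 0 :=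
  sy.diag_level k

end Pool.Agent.D0H27.CAP
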