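import Pool.Agent.D0H27.CAP.Space
import Pool.Agent.D0H27.CAP.Dyadic

/-!
The operators: shift in time followed by averaging.
-/

set_option autoImplicit false

open Filter Topology Finset
open scoped ENNReal

namespace Pool.Agent.D0H27.CAP

/-- ratio of the scale weights -/
noncomputable def sc (n m : ℕ) : ℝ := (3 / 4) ^ n / (3 / 4) ^ m

lemma sc_pos (n m : ℕ) : 0 < sc n m := by unfold sc; positivity

/-- the gain -/
noncomputable def rr (k n m : ℕ) : ℝ := sc n m * Real.exp (-((k : ℝ) / (8 * 2 ^ max n m)))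

lemma rr_pos (k n m : ℕ) : 0 < rr k n m := mul_pos (sc_pos n m) (Real.exp_pos _)

lemma rr_le (k n m : ℕ) : rr k n m ≤ sc n m := by
  unfold rr
  refine mul_le_of_le_one_right (sc_pos n m).le ?_
  rw [Real.exp_le_one_iff, neg_nonpos]
  positivity

lemma rr_anti {k K : ℕ} (h : K ≤ k) (n m : ℕ) : rr k n m ≤ rr K n m := by
  unfold rr
  refine mul_le_mul_of_nonneg_left ?_ (sc_pos n m).le
  rw [Real.exp_le_exp, neg_le_neg_iff]
  have : (K : ℝ) ≤ k := by exact_mod_cast h
  gcongr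

lemma sc_eq (n m : ℕ) : sc n m * (3 / 4) ^ m = (3 / 4) ^ n := by
  unfold sc
  field_simp

lemma wt_le_sc {n m : ℕ} (k j j' : ℕ) (h : ((j' : ℝ) + 1) / 2 ^ m ≤ ((j : ℝ) + 1) / 2 ^ n) :
    wt k n j ≤ sc n m * wt k m j' := by
  unfold wt
  rw [← mul_assoc, sc_eq]
  refine mul_le_mul_of_nonneg_left ?_ (by positivity)
  rw [Real.exp_le_exp, neg_le_neg_iff]
  have h1 : (k : ℝ) * ((j' : ℝ) + 1) / (8 * 2 ^ m) = k / 8 * (((j' : ℝ) + 1) / 2 ^ m) := by
    field_simp
  have h2 : (k : ℝ) * ((j : ℝ) + 1) / (8 * 2 ^ n) = k / 8 * (((j : ℝ) + 1) / 2 ^ n) := by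
    field_simp
  rw [h1, h2]
  exact mul_le_mul_of_nonneg_left h (by positivity)

lemma wt_le_rr {n m : ℕ} (k j j' : ℕ)
    (h : 1 / 2 ^ max n m + ((j' : ℝ) + 1) / 2 ^ m ≤ ((j : ℝ) + 1) / 2 ^ n) :
    wt k n j ≤ rr k n m * wt k m j' := by
  unfold wt rr
  have e : sc n m * Real.exp (-((k : ℝ) / (8 * 2 ^ max n m))) *
      ((3 / 4) ^ m * Real.exp (-((k : ℝ) * ((j' : ℝ) + 1) / (8 * 2 ^ m)))) =
      (sc n m * (3 / 4) ^ m) * Real.exp (-((k : ℝ) / (8 * 2 ^ max n m)) +
        -((k : ℝ) * ((j' : ℝ) + 1) / (8 * 2 ^ m))) := by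
    rw [Real.exp_add]; ring
  rw [e, sc_eq]
  refine mul_le_mul_of_nonneg_left ?_ (by positivity)
  rw [Real.exp_le_exp, ← neg_add, neg_le_neg_iff]
  have h0 : (k : ℝ) / (8 * 2 ^ max n m) = k / 8 * (1 / 2 ^ max n m) := by
    field_simp
  have h1 : (k : ℝ) * ((j' : ℝ) + 1) / (8 * 2 ^ m) = k / 8 * (((j' : ℝ) + 1) / 2 ^ m) := by
    field_simp
  have h2 : (k : ℝ) * ((j : ℝ) + 1) / (8 * 2 ^ n) = k / 8 * (((j : ℝ) + 1) / 2 ^ n) := by
    field_simp
  rw [h0, h1, h2, ← mul_add]
  exact mul_le_mul_of_nonneg_left h (by positivity)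

/-- the basic estimate -/
lemma ext_bound {k n m j : ℕ} (φ : ℕ → ℝ) (N : ℝ) (hN : 0 ≤ N)
    (h : ∀ j', wt k m j' * |φ j'| ≤ N) : wt k n j * |ext m (sh φ) n j| ≤ rr k n m * N := by
  have hr := rr_pos k n m
  by_cases hmn : m ≤ n
  · rw [ext_up hmn]
    unfold sh
    split_ifs with h0
    · rw [abs_zero, mul_zero]; positivity
    · obtain ⟨q, hq⟩ : ∃ q, j / 2 ^ (n - m) = q + 1 := Nat.exists_eq_succ_of_ne_zero h0
      rw [hq, Nat.add_sub_cancel]
      have h1 : (q + 1) * 2 ^ (n - m) ≤ j := by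
        rw [← hq]
        exact Nat.div_mul_le_self _ _
      have h2 : wt k n j ≤ rr k n m * wt k m q := by
        refine wt_le_rr k j q ?_
        rw [max_eq_left hmn]
        have h3 : (2 : ℝ) ^ n = 2 ^ (n - m) * 2 ^ m := by
          rw [← pow_add]; congr 1; omega
        have h4 : ((q : ℝ) + 1) * 2 ^ (n - m) ≤ j := by exact_mod_cast h1
        have h5 : ((q : ℝ) + 1) / 2 ^ m = ((q : ℝ) + 1) * 2 ^ (n - m) / 2 ^ n := by
          rw [h3]; field_simp
        rw [h5, ← add_div]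
        exact div_le_div_of_nonneg_right (by linarith) (by positivity)
      calc _ ≤ rr k n m * wt k m q * |φ q| := mul_le_mul_of_nonneg_right h2 (abs_nonneg _)
        _ = rr k n m * (wt k m q * |φ q|) := by ring
        _ ≤ _ := mul_le_mul_of_nonneg_left (h q) hr.le
  · have hnm : n ≤ m := by omega
    rw [ext_avg hnm, abs_div, abs_of_pos (show (0 : ℝ) < 2 ^ (m - n) by positivity), ← mul_div_assoc,
      div_le_iff₀ (by positivity)]
    have h1 : ∀ t ∈ range (2 ^ (m - n)), wt k n j * |sh φ (j * 2 ^ (m - n) + t)| ≤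
        rr k n m * N := by
      intro t ht
      rw [mem_range] at ht
      unfold sh
      split_ifs with h0
      · rw [abs_zero, mul_zero]; positivity
      · obtain ⟨q, hq⟩ : ∃ q, j * 2 ^ (m - n) + t = q + 1 := ⟨j * 2 ^ (m - n) + t - 1, by omega⟩
        rw [hq, Nat.add_sub_cancel]
        have h2 : wt k n j ≤ rr k n m * wt k m q := by
          refine wt_le_rr k j q ?_
          rw [max_eq_right hnm]
          have h3 : (2 : ℝ) ^ m = 2 ^ (m - n) * 2 ^ n := by
            rw [← pow_add]; congr 1; omega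
          have h4 : q + 2 ≤ (j + 1) * 2 ^ (m - n) := by
            rw [add_mul, one_mul]; omega
          have h4' : (q : ℝ) + 2 ≤ ((j : ℝ) + 1) * 2 ^ (m - n) := by exact_mod_cast h4
          have h5 : ((j : ℝ) + 1) / 2 ^ n = ((j : ℝ) + 1) * 2 ^ (m - n) / 2 ^ m := by
            rw [h3]; field_simp
          rw [h5, ← add_div]
          exact div_le_div_of_nonneg_right (by linarith) (by positivity)
        calc _ ≤ rr k n m * wt k m q * |φ q| := mul_le_mul_of_nonneg_right h2 (abs_nonneg _)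
          _ = rr k n m * (wt k m q * |φ q|) := by ring
          _ ≤ _ := mul_le_mul_of_nonneg_left (h q) hr.le
    calc _ ≤ wt k n j * ∑ t ∈ range (2 ^ (m - n)), |sh φ (j * 2 ^ (m - n) + t)| :=
          mul_le_mul_of_nonneg_left (Finset.abs_sum_le_sum_abs _ _) (wt_pos _ _ _).le
      _ = ∑ t ∈ range (2 ^ (m - n)), wt k n j * |sh φ (j * 2 ^ (m - n) + t)| := Finset.mul_sum _ _ _
      _ ≤ ∑ t ∈ range (2 ^ (m - n)), rr k n m * N := Finset.sum_le_sum h1
      _ = _ := by
        rw [Finset.sum_const, card_range, nsmul_eq_mul]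
        push_cast
        ring

/-- the coordinates of the image -/
noncomputable def im (m : ℕ) (y : Amb) (k n i j : ℕ) : ℝ :=
  ext m (sh (fun t => cX k m i t y)) n j

lemma block_im (m : ℕ) (y : Amb) (q : ℕ × ℕ) :
    ‖mkB (im m y q.1 q.2) q.1 q.2‖ ≤ rr q.1 q.2 m * ‖y (q.1, m)‖ := by
  refine norm_mkB_le _ _ _ _ (mul_nonneg (rr_pos _ _ _).le (norm_nonneg _)) fun i _ j _ => ?_
  exact ext_bound _ _ (norm_nonneg _) (fun j' => wt_cX_le _ _ _ _ _)

lemma summable_sc (m : ℕ) : Summable fun n => sc n m := by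
  unfold sc
  exact (summable_geometric_of_lt_one (by norm_num) (by norm_num)).div_const _

lemma summable_col (y : Amb) (m : ℕ) : Summable fun k : ℕ => ‖y (k, m)‖ :=
  (summable_norm y).comp_injective (i := fun k : ℕ => ((k, m) : ℕ × ℕ))
    (fun a b h => (Prod.ext_iff.1 h).1)

lemma summable_sc_col (y : Amb) (m : ℕ) :
    Summable fun q : ℕ × ℕ => ‖y (q.1, m)‖ * sc q.2 m :=
  (summable_col y m).mul_of_nonneg (summable_sc m) (fun _ => norm_nonneg _)
    (fun n => (sc_pos n m).le)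

lemma summable_rr_col (y : Amb) (m : ℕ) :
    Summable fun q : ℕ × ℕ => rr q.1 q.2 m * ‖y (q.1, m)‖ := by
  refine Summable.of_nonneg_of_le (fun q => mul_nonneg (rr_pos _ _ _).le (norm_nonneg _))
    (fun q => ?_) (summable_sc_col y m)
  rw [mul_comm]
  exact mul_le_mul_of_nonneg_left (rr_le _ _ _) (norm_nonneg _)

/-- the image -/
noncomputable def TAf (m : ℕ) (y : Amb) : Amb :=
  mk (im m y) (fun q => rr q.1 q.2 m * ‖y (q.1, m)‖) (summable_rr_col y m) (block_im m y)

lemma cX_TAf (m : ℕ) (y : Amb) {k n i j : ℕ} (hj : j < 2 ^ n) :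
    cX k n i j (TAf m y) = im m y k n i j := by
  by_cases hi : i < 2 ^ (k + 2)
  · exact cX_mk _ _ _ _ hi hj
  · rw [cX_out (fun h => hi h.1)]
    unfold im
    have : (sh fun t => cX k m i t y) = fun _ => 0 := by
      funext t
      unfold sh
      split_ifs
      · rfl
      · exact cX_out (fun h => hi h.1) _
    rw [this, ext_zero]

lemma norm_TAf (m : ℕ) (y : Amb) : ‖TAf m y‖ ≤ ∑' q : ℕ × ℕ, rr q.1 q.2 m * ‖y (q.1, m)‖ :=
  norm_mk_le _ _ _ _

lemma tsum_col_le (y : Amb) (m : ℕ) : ∑' k : ℕ, ‖y (k, m)‖ ≤ ‖y‖ := by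
  rw [norm_eq]
  exact tsum_comp_le_tsum_of_inj (summable_norm y) (fun _ => norm_nonneg _)
    (i := fun k : ℕ => ((k, m) : ℕ × ℕ)) (fun a b h => (Prod.ext_iff.1 h).1)

/-- the norm on vectors vanishing on the first levels -/
lemma norm_TAf_tail (m K : ℕ) (y z : Amb) (hz : ∀ k, ‖z (k, m)‖ ≤ ‖y (k, m)‖)
    (h0 : ∀ k < K, z (k, m) = 0) : ‖TAf m z‖ ≤ (∑' n, rr K n m) * ‖y‖ := by
  have hs : Summable fun n => rr K n m :=
    Summable.of_nonneg_of_le (fun n => (rr_pos _ _ _).le) (fun n => rr_le _ _ _) (summable_sc m)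
  have hsp : Summable fun q : ℕ × ℕ => ‖y (q.1, m)‖ * rr K q.2 m :=
    (summable_col y m).mul_of_nonneg hs (fun _ => norm_nonneg _) (fun n => (rr_pos _ _ _).le)
  have h1 : ∀ q : ℕ × ℕ, rr q.1 q.2 m * ‖z (q.1, m)‖ ≤ ‖y (q.1, m)‖ * rr K q.2 m := by
    intro q
    by_cases h : q.1 < K
    · rw [h0 q.1 h, norm_zero, mul_zero]
      exact mul_nonneg (norm_nonneg _) (rr_pos _ _ _).le
    · rw [mul_comm]
      exact mul_le_mul (hz q.1) (rr_anti (by omega) _ _) (rr_pos _ _ _).le (norm_nonneg _)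
  have h2 : (∑' k : ℕ, ‖y (k, m)‖) * (∑' n, rr K n m) =
      ∑' q : ℕ × ℕ, ‖y (q.1, m)‖ * rr K q.2 m :=
    tsum_mul_tsum_of_summable_norm (summable_col y m).norm hs.norm
  calc ‖TAf m z‖ ≤ ∑' q : ℕ × ℕ, rr q.1 q.2 m * ‖z (q.1, m)‖ := norm_TAf m z
    _ ≤ ∑' q : ℕ × ℕ, ‖y (q.1, m)‖ * rr K q.2 m :=
        (summable_rr_col z m).tsum_le_tsum h1 hsp
    _ = (∑' k : ℕ, ‖y (k, m)‖) * (∑' n, rr K n m) := h2.symm
    _ ≤ ‖y‖ * (∑' n, rr K n m) := mul_le_mul_of_nonneg_right (tsum_col_le y m)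
        (tsum_nonneg fun n => (rr_pos _ _ _).le)
    _ = _ := mul_comm _ _

/-- the operator on the ambient space -/
noncomputable def TA (m : ℕ) : Amb →L[ℝ] Amb :=
  LinearMap.mkContinuous
    { toFun := TAf m
      map_add' := fun y z => by
        refine amb_ext fun k n i j _ hj => ?_
        rw [map_add, cX_TAf m _ hj, cX_TAf m _ hj, cX_TAf m _ hj]
        unfold im
        rw [← ext_add, ← sh_add]
        simp only [map_add]
      map_smul' := fun c y => by
        refine amb_ext fun k n i j _ hj => ?_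
        rw [RingHom.id_apply, map_smul, cX_TAf m _ hj, cX_TAf m _ hj, smul_eq_mul]
        unfold im
        rw [← ext_smul, ← sh_smul]
        simp only [map_smul, smul_eq_mul] }
    (∑' n, rr 0 n m) (fun y => norm_TAf_tail m 0 y y (fun _ => le_rfl) (fun k hk => by omega))

lemma TA_apply (m : ℕ) (y : Amb) : TA m y = TAf m y := rfl

/-- projection on finitely many blocks -/
noncomputable def Pr (m K : ℕ) : Amb →L[ℝ] Amb :=
  ∑ k ∈ range K, (lp.singleContinuousLinearMap ℝ Blk 1 ((k, m) : ℕ × ℕ)).comp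
    (lp.evalCLM ℝ Blk 1 ((k, m) : ℕ × ℕ))

lemma Pr_apply (m K : ℕ) (y : Amb) :
    Pr m K y = ∑ k ∈ range K, lp.single 1 ((k, m) : ℕ × ℕ) (y (k, m)) := by
  unfold Pr
  rw [_root_.sum_apply]
  rfl

lemma coe_sum (s : Finset ℕ) (F : ℕ → Amb) (q : ℕ × ℕ) : (∑ k ∈ s, F k) q = ∑ k ∈ s, F k q := by
  have h := map_sum (lp.evalCLM ℝ Blk 1 q) F s
  exact h

lemma Pr_block (m K l : ℕ) (y : Amb) :
    (Pr m K y) (l, m) = if l < K then y (l, m) else 0 := by
  rw [Pr_apply, coe_sum]
  split_ifs with h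
  · rw [Finset.sum_eq_single l]
    · exact lp.single_apply_self 1 ((l, m) : ℕ × ℕ) (y (l, m))
    · intro k _ hk
      exact lp.single_apply_ne 1 ((k, m) : ℕ × ℕ) (y (k, m)) (fun h' => hk (Prod.ext_iff.1 h').1.symm)
    · intro h'
      exact absurd (mem_range.2 h) h'
  · refine Finset.sum_eq_zero fun k hk => ?_
    rw [mem_range] at hk
    exact lp.single_apply_ne 1 ((k, m) : ℕ × ℕ) (y (k, m)) (fun h' => by
      have : l = k := (Prod.ext_iff.1 h').1
      omega)

lemma norm_sub_comp (m K : ℕ) : ‖TA m - (TA m).comp (Pr m K)‖ ≤ ∑' n, rr K n m := by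
  refine ContinuousLinearMap.opNorm_le_bound _ (tsum_nonneg fun n => (rr_pos _ _ _).le) fun y => ?_
  have e : (TA m - (TA m).comp (Pr m K)) y = TAf m (y - Pr m K y) := by
    show TA m y - TA m (Pr m K y) = TA m (y - Pr m K y)
    rw [map_sub]
  rw [e]
  refine norm_TAf_tail m K y _ (fun k => ?_) (fun k hk => ?_)
  · show ‖y (k, m) - (Pr m K y) (k, m)‖ ≤ _
    rw [Pr_block]
    split_ifs
    · rw [sub_self, norm_zero]; exact norm_nonneg _
    · rw [sub_zero]
  · show y (k, m) - (Pr m K y) (k, m) = 0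
    rw [Pr_block, if_pos hk, sub_self]

lemma tendsto_rr (m : ℕ) : Tendsto (fun K : ℕ => ∑' n, rr K n m) atTop (𝓝 0) := by
  have h := tendsto_tsum_of_dominated_convergence (𝓕 := atTop) (f := fun (K n : ℕ) => rr K n m)
    (g := fun _ => (0 : ℝ)) (bound := fun n => sc n m) (summable_sc m) (fun n => ?_)
    (Eventually.of_forall fun K n => by
      rw [Real.norm_of_nonneg (rr_pos _ _ _).le]
      exact rr_le _ _ _)
  · simpa using h
  · unfold rr
    have h1 : Tendsto (fun K : ℕ => -((K : ℝ) / (8 * 2 ^ max n m))) atTop atBot := by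
      rw [tendsto_neg_atBot_iff]
      exact tendsto_natCast_atTop_atTop.atTop_div_const (by positivity)
    have h2 := (Real.tendsto_exp_atBot.comp h1).const_mul (sc n m)
    rw [mul_zero] at h2
    exact h2

theorem compact_TA (m : ℕ) : IsCompactOperator (TA m) := by
  refine isCompactOperator_of_tendsto (F := fun K : ℕ => (TA m).comp (Pr m K)) (l := atTop) ?_
    (Eventually.of_forall fun K => ?_)
  · rw [tendsto_iff_norm_sub_tendsto_zero]
    refine squeeze_zero (fun K => norm_nonneg _) (fun K => ?_) (tendsto_rr m)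
    rw [norm_sub_rev]
    exact norm_sub_comp m K
  · have h1 : IsCompactOperator (Pr m K) := by
      unfold Pr
      induction K with
      | zero =>
        rw [Finset.range_zero, Finset.sum_empty]
        exact isCompactOperator_zero
      | succ K ih =>
        rw [Finset.sum_range_succ]
        refine IsCompactOperator.add ih ?_
        exact (isCompactOperator_of_locallyCompactSpace_rng
          (lp.singleContinuousLinearMap ℝ Blk 1 ((K, m) : ℕ × ℕ))).comp_clm _
    exact h1.clm_comp (TA m)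

/-- the operators preserve the space -/
theorem rel_TA (m : ℕ) (y : Amb) (hy : Rel y) : Rel (TA m y) := by
  refine ⟨fun k n i j hj => ?_, fun n j x => ?_⟩
  · have h1 : 2 * j < 2 ^ (n + 1) := by rw [pow_succ]; omega
    have h2 : 2 * j + 1 < 2 ^ (n + 1) := by rw [pow_succ]; omega
    rw [TA_apply, cX_TAf m y hj, cX_TAf m y h1, cX_TAf m y h2]
    exact ext_mart _ _ _ _
  · by_cases hj : j < 2 ^ n
    · have e : ∀ k i, cX k n i j (TA m y) * am (k, i) x =
          ext m (fun t => am (k, i) x * sh (fun t' => cX k m i t' y) t) n j := by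
        intro k i
        rw [TA_apply, cX_TAf m y hj, mul_comm]
        exact (ext_smul _ _ _ _ _).symm
      simp only [e]
      simp only [ext_sum]
      have h0 : (fun t => ∑ k ∈ range (x.1 + 2), ∑ i ∈ range (2 ^ (k + 2)),
          am (k, i) x * sh (fun t' => cX k m i t' y) t) = fun _ => (0 : ℝ) := by
        funext t
        unfold sh
        split_ifs
        · simp
        · rw [← hy.2 m (t - 1) x]
          exact Finset.sum_congr rfl fun k _ => Finset.sum_congr rfl fun i _ => mul_comm _ _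
      rw [h0, ext_zero]
    · refine Finset.sum_eq_zero fun k _ => Finset.sum_eq_zero fun i _ => ?_
      rw [cX_out (fun h => hj h.2), zero_mul]

/-- the operators on the space -/
noncomputable def TE (m : ℕ) : ES →L[ℝ] ES :=
  ((TA m).comp Es.subtypeL).codRestrict Es (fun y => rel_TA m y y.2)

theorem compact_TE (m : ℕ) : IsCompactOperator (TE m) :=
  ((compact_TA m).comp_clm Es.subtypeL).codRestrict (fun y : ES => rel_TA m y y.2) isClosed_Es

end Pool.Agent.D0H27.CAP
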