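import Pool.Agent.D0H27.CAP.Oper

/-!
The operators converge strongly to the identity.
-/

set_option autoImplicit false

open Filter Topology Finset
open scoped ENNReal

namespace Pool.Agent.D0H27.CAP

/-- the coefficients of the estimate -/
noncomputable def ro (m n : ℕ) : ℝ := if n < m then 2 * (2 / 3) ^ (m - n) else sc n m

lemma ro_nonneg (m n : ℕ) : 0 ≤ ro m n := by
  unfold ro
  split_ifs
  · positivity
  · exact (sc_pos _ _).le

lemma sc_add (m l : ℕ) : sc (l + m) m = (3 / 4) ^ l := by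
  unfold sc
  rw [pow_add]
  field_simp

lemma sc_of_le {n m : ℕ} (h : n ≤ m) : sc n m / 2 ^ (m - n) = (2 / 3) ^ (m - n) := by
  obtain ⟨d, rfl⟩ := Nat.exists_eq_add_of_le h
  rw [Nat.add_sub_cancel_left]
  unfold sc
  rw [pow_add, div_pow, div_pow, div_pow]
  have : (4 : ℝ) ^ d = 2 ^ d * 2 ^ d := by rw [← mul_pow]; norm_num
  rw [this]
  field_simp

lemma sum_ro (m : ℕ) : ∑ n ∈ range m, ro m n ≤ 4 := by
  have e : ∀ n ∈ range m, ro m n = 2 * (2 / 3 : ℝ) ^ (m - n) := fun n hn =>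
    if_pos (mem_range.1 hn)
  rw [Finset.sum_congr rfl e]
  clear e
  induction m with
  | zero => simp
  | succ m ih =>
    rw [Finset.sum_range_succ]
    have e : ∀ n ∈ range m, 2 * (2 / 3 : ℝ) ^ (m + 1 - n) = 2 / 3 * (2 * (2 / 3) ^ (m - n)) := by
      intro n hn
      rw [mem_range] at hn
      rw [show m + 1 - n = (m - n) + 1 by omega, pow_succ]
      ring
    rw [Finset.sum_congr rfl e, ← Finset.mul_sum, show m + 1 - m = 1 by omega]
    linarith

lemma ro_shift (m l : ℕ) : ro m (l + m) = (3 / 4) ^ l := by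
  unfold ro
  rw [if_neg (by omega), sc_add]

lemma summable_ro (m : ℕ) : Summable (ro m) := by
  rw [← summable_nat_add_iff m]
  simp only [ro_shift]
  exact summable_geometric_of_lt_one (by norm_num) (by norm_num)

lemma tsum_ro (m : ℕ) : ∑' n, ro m n ≤ 8 := by
  rw [← (summable_ro m).sum_add_tsum_nat_add m]
  simp only [ro_shift]
  rw [tsum_geometric_of_lt_one (by norm_num) (by norm_num)]
  have := sum_ro m
  norm_num
  linarith

lemma norm_block_le (z : Amb) (k n : ℕ) (C : ℝ) (hC : 0 ≤ C)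
    (h : ∀ i < 2 ^ (k + 2), ∀ j < 2 ^ n, wt k n j * |cX k n i j z| ≤ C) : ‖z (k, n)‖ ≤ C := by
  refine (pi_norm_le_iff_of_nonneg hC).2 fun p => ?_
  have h1 := h p.1 p.1.2 p.2 p.2.2
  rw [cX_apply p.1.2 p.2.2, abs_mul, abs_of_pos (inv_pos.2 (wt_pos _ _ _)), ← mul_assoc,
    mul_inv_cancel₀ (wt_pos _ _ _).ne', one_mul] at h1
  exact h1

lemma diff_low {k n m i j : ℕ} (y : Amb) (hy : Rel y) (h : n < m) (hj : j < 2 ^ n) :
    wt k n j * |cX k n i j (TAf m y - y)| ≤ ro m n * ‖y (k, m)‖ := by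
  set φ : ℕ → ℝ := fun t => cX k m i t y with hφ
  set d := m - n with hd
  have e : cX k n i j (TAf m y - y) =
      (sh φ (j * 2 ^ d) - φ (j * 2 ^ d + (2 ^ d - 1))) / 2 ^ d := by
    rw [map_sub, cX_TAf m y hj]
    have h1 : cX k n i j y = ext m φ n j :=
      mart_ext (fun n j => cX k n i j y) (fun n j hj => hy.1 k n i j hj) h.le hj
    rw [h1]
    exact ext_diff h.le φ j
  have hb : ∀ j', wt k m j' * |φ j'| ≤ ‖y (k, m)‖ := fun j' => wt_cX_le _ _ _ _ _
  have h2 : (2 : ℝ) ^ m = 2 ^ d * 2 ^ n := by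
    rw [← pow_add]; congr 1; omega
  have hdpos : 0 < 2 ^ d := by positivity
  have hsc := sc_pos n m
  have key : ∀ j' : ℕ, j' + 1 ≤ (j + 1) * 2 ^ d → wt k n j * |φ j'| ≤ sc n m * ‖y (k, m)‖ := by
    intro j' hj'
    have h3 : wt k n j ≤ sc n m * wt k m j' := by
      refine wt_le_sc k j j' ?_
      have h4 : (j' : ℝ) + 1 ≤ ((j : ℝ) + 1) * 2 ^ d := by exact_mod_cast hj'
      have h5 : ((j : ℝ) + 1) / 2 ^ n = ((j : ℝ) + 1) * 2 ^ d / 2 ^ m := by
        rw [h2]; field_simp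
      rw [h5]
      exact div_le_div_of_nonneg_right h4 (by positivity)
    calc _ ≤ sc n m * wt k m j' * |φ j'| := mul_le_mul_of_nonneg_right h3 (abs_nonneg _)
      _ = sc n m * (wt k m j' * |φ j'|) := by ring
      _ ≤ _ := mul_le_mul_of_nonneg_left (hb j') hsc.le
  have h6 : wt k n j * |sh φ (j * 2 ^ d)| ≤ sc n m * ‖y (k, m)‖ := by
    unfold sh
    split_ifs with h0
    · rw [abs_zero, mul_zero]; positivity
    · refine key _ ?_
      rw [add_mul, one_mul]
      omega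
  have h7 : wt k n j * |φ (j * 2 ^ d + (2 ^ d - 1))| ≤ sc n m * ‖y (k, m)‖ := by
    refine key _ ?_
    rw [add_mul, one_mul]
    omega
  have h8 : ro m n = 2 * (sc n m / 2 ^ d) := by
    unfold ro
    rw [if_pos h, sc_of_le h.le]
  rw [e, h8, abs_div, abs_of_pos (show (0 : ℝ) < 2 ^ d by positivity)]
  have h9 : |sh φ (j * 2 ^ d) - φ (j * 2 ^ d + (2 ^ d - 1))| ≤
      |sh φ (j * 2 ^ d)| + |φ (j * 2 ^ d + (2 ^ d - 1))| := abs_sub _ _
  have h10 := mul_le_mul_of_nonneg_left h9 (wt_pos k n j).le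
  rw [mul_add] at h10
  calc _ = (wt k n j * |sh φ (j * 2 ^ d) - φ (j * 2 ^ d + (2 ^ d - 1))|) / 2 ^ d := by ring
    _ ≤ (2 * (sc n m * ‖y (k, m)‖)) / 2 ^ d :=
        div_le_div_of_nonneg_right (by linarith) (by positivity)
    _ = _ := by ring

lemma diff_block (m : ℕ) (y : Amb) (hy : Rel y) (q : ℕ × ℕ) :
    ‖(TAf m y - y) q‖ ≤ ‖y (q.1, m)‖ * ro m q.2 + (if m ≤ q.2 then ‖y q‖ else 0) := by
  obtain ⟨k, n⟩ := q
  have h0 : 0 ≤ ‖y (k, m)‖ * ro m n := mul_nonneg (norm_nonneg _) (ro_nonneg _ _)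
  have h0' : 0 ≤ (if m ≤ n then ‖y (k, n)‖ else 0) := by
    split_ifs
    · exact norm_nonneg _
    · exact le_rfl
  refine norm_block_le _ k n _ (add_nonneg h0 h0') fun i _ j hj => ?_
  show wt k n j * |cX k n i j (TAf m y - y)| ≤
    ‖y (k, m)‖ * ro m n + (if m ≤ n then ‖y (k, n)‖ else 0)
  by_cases h : n < m
  · rw [if_neg (show ¬ m ≤ n by omega), add_zero, mul_comm (‖y (k, m)‖)]
    exact diff_low y hy h hj
  · rw [if_pos (show m ≤ n by omega), map_sub, cX_TAf m y hj]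
    have h1 : wt k n j * |im m y k n i j| ≤ rr k n m * ‖y (k, m)‖ :=
      ext_bound _ _ (norm_nonneg _) (fun j' => wt_cX_le _ _ _ _ _)
    have h2 := wt_cX_le k n i j y
    have h3 : ro m n = sc n m := if_neg h
    have h4 := mul_le_mul_of_nonneg_right (rr_le k n m) (norm_nonneg (y (k, m)))
    have h5 := mul_le_mul_of_nonneg_left (abs_sub (im m y k n i j) (cX k n i j y))
      (wt_pos k n j).le
    rw [mul_add] at h5
    rw [h3, mul_comm (‖y (k, m)‖)]
    linarith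

lemma summable_tail (m : ℕ) (y : Amb) :
    Summable fun q : ℕ × ℕ => if m ≤ q.2 then ‖y q‖ else 0 := by
  refine Summable.of_nonneg_of_le (fun q => ?_) (fun q => ?_) (summable_norm y)
  · split_ifs
    · exact norm_nonneg _
    · exact le_rfl
  · split_ifs
    · exact le_rfl
    · exact norm_nonneg _

lemma norm_diff_le (m : ℕ) (y : Amb) (hy : Rel y) :
    ‖TAf m y - y‖ ≤ 8 * ∑' k : ℕ, ‖y (k, m)‖ + ∑' q : ℕ × ℕ, (if m ≤ q.2 then ‖y q‖ else 0) := by
  have hs : Summable fun q : ℕ × ℕ => ‖y (q.1, m)‖ * ro m q.2 :=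
    (summable_col y m).mul_of_nonneg (summable_ro m) (fun _ => norm_nonneg _) (ro_nonneg m)
  have h2 : (∑' k : ℕ, ‖y (k, m)‖) * (∑' n, ro m n) = ∑' q : ℕ × ℕ, ‖y (q.1, m)‖ * ro m q.2 :=
    tsum_mul_tsum_of_summable_norm (summable_col y m).norm (summable_ro m).norm
  rw [norm_eq]
  refine ((summable_norm _).tsum_le_tsum (diff_block m y hy) (hs.add (summable_tail m y))).trans ?_
  rw [hs.tsum_add (summable_tail m y), ← h2]
  have h3 : 0 ≤ ∑' k : ℕ, ‖y (k, m)‖ := tsum_nonneg fun _ => norm_nonneg _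
  have h4 := mul_le_mul_of_nonneg_left (tsum_ro m) h3
  linarith

lemma tendsto_col (y : Amb) : Tendsto (fun m => ∑' k : ℕ, ‖y (k, m)‖) atTop (𝓝 0) := by
  have h1 : Summable fun p : ℕ × ℕ => ‖y (p.2, p.1)‖ :=
    (summable_norm y).comp_injective (i := fun p : ℕ × ℕ => ((p.2, p.1) : ℕ × ℕ))
      (fun a b h => by
        obtain ⟨h1, h2⟩ := Prod.ext_iff.1 h
        exact Prod.ext h2 h1)
  exact h1.prod.tendsto_atTop_zero

lemma tendsto_tail (y : Amb) :
    Tendsto (fun m : ℕ => ∑' q : ℕ × ℕ, (if m ≤ q.2 then ‖y q‖ else 0)) atTop (𝓝 0) := by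
  have h := tendsto_tsum_of_dominated_convergence (𝓕 := atTop)
    (f := fun (m : ℕ) (q : ℕ × ℕ) => if m ≤ q.2 then ‖y q‖ else 0)
    (g := fun _ => (0 : ℝ)) (bound := fun q => ‖y q‖) (summable_norm y) (fun q => ?_)
    (Eventually.of_forall fun m q => by
      split_ifs
      · rw [norm_norm]
      · rw [norm_zero]; exact norm_nonneg _)
  · simpa using h
  · refine tendsto_const_nhds.congr' ?_
    filter_upwards [eventually_gt_atTop q.2] with m hm
    rw [if_neg (by omega)]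

theorem tendsto_TE (y : ES) : Tendsto (fun m => TE m y) atTop (𝓝 y) := by
  rw [tendsto_iff_norm_sub_tendsto_zero]
  have h1 := ((tendsto_col (y : Amb)).const_mul 8).add (tendsto_tail (y : Amb))
  rw [mul_zero, add_zero] at h1
  exact squeeze_zero (fun m => norm_nonneg _) (fun m => norm_diff_le m (y : Amb) y.2) h1

end Pool.Agent.D0H27.CAP
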