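import Mathlib

/-!
Threads of bounded variation over a decreasing sequence of closed subspaces of finite codimension.
-/

set_option autoImplicit false

open Set Filter Topology

namespace Pool.Agent.D0H27.CAP

/-- A decreasing sequence of closed subspaces `K n` of finite codimension such that bounded
coherent sequences have a limit (`thread`) and such that lifts of almost minimal norm converge
(`kk`). -/
structure Tower (E : Type) [NormedAddCommGroup E] [NormedSpace ℝ E] where
  K : ℕ → Submodule ℝ E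
  closed : ∀ n, IsClosed (K n : Set E)
  anti : ∀ n, K (n + 1) ≤ K n
  fin : ∀ n, FiniteDimensional ℝ (E ⧸ K n)
  thread : ∀ z : ℕ → E, (∃ C : ℝ, ∀ n, ‖z n‖ ≤ C) → (∀ n, z (n + 1) - z n ∈ K n) →
    ∃ y, ∀ n, y - z n ∈ K n
  kk : ∀ (y : E) (z r : ℕ → E), (∀ n, z n - y - r n ∈ K n) → Tendsto r atTop (𝓝 0) →
    (∀ ε : ℝ, 0 < ε → ∀ᶠ n in atTop, ‖z n‖ ≤ ‖y‖ + ε) → Tendsto z atTop (𝓝 y)

variable {E : Type} [NormedAddCommGroup E] [NormedSpace ℝ E] (T : Tower E)

namespace Tower

/-- the quotients -/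
abbrev G (n : ℕ) : Type := E ⧸ T.K n

instance isClosed_K (n : ℕ) : IsClosed (T.K n : Set E) := T.closed n

instance finG (n : ℕ) : FiniteDimensional ℝ (T.G n) := T.fin n

instance properG (n : ℕ) : ProperSpace (T.G n) := FiniteDimensional.proper_real _

/-- the quotient map -/
def q (n : ℕ) : E →ₗ[ℝ] T.G n := (T.K n).mkQ

lemma norm_q_le (n : ℕ) (y : E) : ‖T.q n y‖ ≤ ‖y‖ := Submodule.Quotient.norm_mk_le (T.K n) y

lemma q_surj (n : ℕ) (g : T.G n) : ∃ y, T.q n y = g := Submodule.mkQ_surjective _ g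

lemma q_lift (n : ℕ) (g : T.G n) (ε : ℝ) (hε : 0 < ε) : ∃ y, T.q n y = g ∧ ‖y‖ < ‖g‖ + ε :=
  Submodule.Quotient.norm_mk_lt g hε

lemma q_eq_zero (n : ℕ) (y : E) : T.q n y = 0 ↔ y ∈ T.K n := by
  unfold q
  rw [Submodule.mkQ_apply, Submodule.Quotient.mk_eq_zero]

lemma q_eq (n : ℕ) (y z : E) : T.q n y = T.q n z ↔ y - z ∈ T.K n := by
  rw [← T.q_eq_zero, map_sub, sub_eq_zero]

/-- the connecting maps -/
def r (n : ℕ) : T.G (n + 1) →ₗ[ℝ] T.G n := Submodule.factor (T.anti n)

lemma r_q (n : ℕ) (y : E) : T.r n (T.q (n + 1) y) = T.q n y := rfl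

lemma norm_r_le (n : ℕ) (g : T.G (n + 1)) : ‖T.r n g‖ ≤ ‖g‖ := by
  refine le_of_forall_pos_le_add fun ε hε => ?_
  obtain ⟨y, hy, hn⟩ := T.q_lift (n + 1) g ε hε
  rw [← hy, r_q]
  rw [hy]
  exact (T.norm_q_le n y).trans hn.le

lemma continuous_r (n : ℕ) : Continuous (T.r n) := LinearMap.continuous_of_finiteDimensional _

/-- the ambient space -/
abbrev V : Type := ∀ n, T.G n

/-- the compact convex set -/
def X : Set T.V := {x | (∀ n, ‖x n‖ ≤ 1) ∧
  ∀ N, ∑ n ∈ Finset.range N, ‖T.r n (x (n + 1)) - x n‖ ≤ 1}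

theorem isCompact_X : IsCompact T.X := by
  have h1 : IsCompact (Set.pi univ fun n => Metric.closedBall (0 : T.G n) 1) :=
    isCompact_univ_pi fun n => isCompact_closedBall _ _
  refine h1.of_isClosed_subset ?_ ?_
  · have : T.X = (⋂ n, {x : T.V | ‖x n‖ ≤ 1}) ∩
        ⋂ N, {x : T.V | ∑ n ∈ Finset.range N, ‖T.r n (x (n + 1)) - x n‖ ≤ 1} := by
      ext x
      simp only [X, mem_ofPred_eq, mem_inter_iff, mem_iInter]
    rw [this]
    refine IsClosed.inter (isClosed_iInter fun n => ?_) (isClosed_iInter fun N => ?_)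
    · exact isClosed_le (continuous_apply n).norm continuous_const
    · refine isClosed_le (continuous_finsetSum _ fun n _ => ?_) continuous_const
      exact (((T.continuous_r n).comp (continuous_apply (n + 1))).sub (continuous_apply n)).norm
  · intro x hx n _
    rw [mem_closedBall_zero_iff]
    exact hx.1 n

theorem convex_X : Convex ℝ T.X := by
  intro x hx y hy a b ha hb hab
  refine ⟨fun n => ?_, fun N => ?_⟩
  · show ‖a • x n + b • y n‖ ≤ 1
    refine (norm_add_le _ _).trans ?_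
    rw [norm_smul, norm_smul, Real.norm_of_nonneg ha, Real.norm_of_nonneg hb]
    nlinarith [hx.1 n, hy.1 n]
  · have h1 : ∀ n, ‖T.r n ((a • x + b • y) (n + 1)) - (a • x + b • y) n‖ ≤
        a * ‖T.r n (x (n + 1)) - x n‖ + b * ‖T.r n (y (n + 1)) - y n‖ := by
      intro n
      have e : T.r n ((a • x + b • y) (n + 1)) - (a • x + b • y) n =
          a • (T.r n (x (n + 1)) - x n) + b • (T.r n (y (n + 1)) - y n) := by
        show T.r n (a • x (n + 1) + b • y (n + 1)) - (a • x n + b • y n) = _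
        rw [map_add, map_smul, map_smul, smul_sub, smul_sub]
        abel
      rw [e]
      refine (norm_add_le _ _).trans ?_
      rw [norm_smul, norm_smul, Real.norm_of_nonneg ha, Real.norm_of_nonneg hb]
    refine (Finset.sum_le_sum fun n _ => h1 n).trans ?_
    rw [Finset.sum_add_distrib, ← Finset.mul_sum, ← Finset.mul_sum]
    nlinarith [hx.2 N, hy.2 N]

/-- `y` is the limit of the thread `x` -/
def IsLim (x : T.V) (y : E) : Prop := Tendsto (fun n => ‖T.q n y - x n‖) atTop (𝓝 0)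

/-- a null sequence of lifts -/
lemma exists_null (y : E) (x : T.V) (h : T.IsLim x y) :
    ∃ r : ℕ → E, (∀ n, T.q n (r n) = x n - T.q n y) ∧ Tendsto r atTop (𝓝 0) := by
  choose r hr hn using fun n : ℕ => T.q_lift n (x n - T.q n y) (1 / ((n : ℝ) + 1)) (by positivity)
  refine ⟨r, hr, ?_⟩
  rw [tendsto_zero_iff_norm_tendsto_zero]
  have h1 : Tendsto (fun n : ℕ => ‖x n - T.q n y‖ + 1 / ((n : ℝ) + 1)) atTop (𝓝 0) := by
    have h2 := h.add (tendsto_one_div_add_atTop_nhds_zero_nat (𝕜 := ℝ))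
    rw [add_zero] at h2
    refine h2.congr fun n => ?_
    rw [norm_sub_rev]
  exact squeeze_zero (fun n => norm_nonneg _) (fun n => (hn n).le) h1

lemma isLim_unique {x : T.V} {y y' : E} (h : T.IsLim x y) (h' : T.IsLim x y') : y = y' := by
  have h1 : T.IsLim 0 (y - y') := by
    unfold IsLim at h h' ⊢
    have h2 := h.add h'
    rw [add_zero] at h2
    refine squeeze_zero (fun n => norm_nonneg _) (fun n => ?_) h2
    have : T.q n (y - y') - (0 : T.V) n = (T.q n y - x n) - (T.q n y' - x n) := by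
      rw [map_sub, Pi.zero_apply]; abel
    rw [this]
    exact norm_sub_le _ _
  obtain ⟨r, hr, hr0⟩ := T.exists_null _ _ h1
  have h2 := T.kk (y - y') (fun _ => 0) r (fun n => ?_) hr0 (fun ε hε => ?_)
  · have h3 := tendsto_nhds_unique h2 tendsto_const_nhds
    exact sub_eq_zero.1 h3
  · rw [← T.q_eq_zero, map_sub, map_sub, hr, map_zero, Pi.zero_apply]
    abel
  · refine Eventually.of_forall fun n => ?_
    rw [norm_zero]
    positivity

variable [CompleteSpace E]

theorem exists_lim (x : T.V) (hx : x ∈ T.X) : ∃ y, T.IsLim x y := by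
  choose z hz hzn using fun n : ℕ => T.q_lift n (x n) 1 one_pos
  choose d hd hdn using fun n : ℕ => T.q_lift n (T.r n (x (n + 1)) - x n) ((1 / 2) ^ n)
    (by positivity)
  have hs : Summable fun n => ‖d n‖ := by
    refine Summable.of_nonneg_of_le (fun n => norm_nonneg _) (fun n => (hdn n).le) ?_
    refine Summable.add ?_ summable_geometric_two
    exact summable_of_sum_range_le (c := 1) (fun n => norm_nonneg _) hx.2
  have hsd : Summable d := hs.of_norm
  set D : ℕ → E := fun n => ∑ l ∈ Finset.range n, d l with hD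
  have hDlim : Tendsto D atTop (𝓝 (∑' l, d l)) := hsd.hasSum.tendsto_sum_nat
  have hDb : ∀ n, ‖D n‖ ≤ ∑' l, ‖d l‖ := fun n =>
    (norm_sum_le _ _).trans (hs.sum_le_tsum _ fun l _ => norm_nonneg _)
  obtain ⟨y', hy'⟩ := T.thread (fun n => z n - D n) ⟨2 + ∑' l, ‖d l‖, fun n => by
    refine (norm_sub_le _ _).trans (add_le_add ?_ (hDb n))
    have := hx.1 n
    linarith [hzn n]⟩ (fun n => by
    have h1 : z (n + 1) - D (n + 1) - (z n - D n) = z (n + 1) - z n - d n := by
      simp only [hD]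
      rw [Finset.sum_range_succ]
      abel
    rw [h1, ← T.q_eq_zero, map_sub, map_sub, hd, hz n, ← T.r_q, hz (n + 1)]
    abel)
  refine ⟨y' + ∑' l, d l, ?_⟩
  have h1 : ∀ n, T.q n (y' + ∑' l, d l) - x n = T.q n (∑' l, d l - D n) := by
    intro n
    have h2 : T.q n (y' - (z n - D n)) = 0 := (T.q_eq_zero n _).2 (hy' n)
    rw [map_sub, map_sub, hz n] at h2
    rw [map_add, map_sub]
    have h3 : T.q n y' = x n - T.q n (D n) := by
      rw [sub_eq_zero] at h2
      exact h2
    rw [h3]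
    abel
  have h5 : ∀ n, ‖T.q n (y' + ∑' l, d l) - x n‖ ≤ ‖(∑' l, d l) - D n‖ := fun n => by
    rw [h1]
    exact T.norm_q_le n _
  refine squeeze_zero (fun n => norm_nonneg _) h5 ?_
  have h4 := ((tendsto_const_nhds (x := ∑' l, d l)).sub hDlim).norm
  rw [sub_self, norm_zero] at h4
  exact h4

open Classical in
/-- the limit map -/
noncomputable def f (x : T.X) : E := (T.exists_lim x.1 x.2).choose

lemma f_spec (x : T.X) : T.IsLim x.1 (T.f x) := (T.exists_lim x.1 x.2).choose_spec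

lemma f_eq {x : T.X} {y : E} (h : T.IsLim x.1 y) : T.f x = y := T.isLim_unique (T.f_spec x) h

/-- the diagonal embedding -/
def J (y : E) : T.V := fun n => T.q n y

lemma J_mem {y : E} (hy : ‖y‖ ≤ 1) : T.J y ∈ T.X := by
  refine ⟨fun n => (T.norm_q_le n y).trans hy, fun N => ?_⟩
  have : ∀ n, T.r n (T.J y (n + 1)) - T.J y n = 0 := fun n => by
    show T.r n (T.q (n + 1) y) - T.q n y = 0
    rw [r_q, sub_self]
  simp only [this, norm_zero, Finset.sum_const_zero]
  exact zero_le_one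

lemma f_J {y : E} (hy : ‖y‖ ≤ 1) : T.f ⟨T.J y, T.J_mem hy⟩ = y := by
  refine T.f_eq ?_
  unfold IsLim J
  simp

theorem affine_f (x y z : T.X) (t : ℝ) (ht0 : 0 ≤ t) (ht1 : t ≤ 1)
    (h : (z : T.V) = t • (x : T.V) + (1 - t) • (y : T.V)) :
    T.f z = t • T.f x + (1 - t) • T.f y := by
  refine T.f_eq ?_
  have h1 := ((T.f_spec x).const_mul t).add ((T.f_spec y).const_mul (1 - t))
  rw [mul_zero, mul_zero, add_zero] at h1
  refine squeeze_zero (fun n => norm_nonneg _) (fun n => ?_) h1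
  have e : T.q n (t • T.f x + (1 - t) • T.f y) - (z : T.V) n =
      t • (T.q n (T.f x) - (x : T.V) n) + (1 - t) • (T.q n (T.f y) - (y : T.V) n) := by
    rw [h, map_add, map_smul, map_smul, smul_sub, smul_sub]
    show _ - (t • (x : T.V) n + (1 - t) • (y : T.V) n) = _
    abel
  rw [e]
  refine (norm_add_le _ _).trans ?_
  rw [norm_smul, norm_smul, Real.norm_of_nonneg ht0, Real.norm_of_nonneg (by linarith)]

/-- continuous lifts of almost minimal norm -/
theorem exists_lift (n : ℕ) (ε : ℝ) (hε : 0 < ε) :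
    ∃ L : T.G n → E, Continuous L ∧ ∀ g, T.q n (L g) = g ∧ ‖L g‖ < ‖g‖ + ε := by
  obtain ⟨s, hs⟩ := (T.q n).exists_rightInverse_of_surjective
    (LinearMap.range_eq_top.2 (T.q_surj n))
  have hs' : ∀ g, T.q n (s g) = g := fun g => by
    have := LinearMap.congr_fun hs g
    simpa using this
  have hsc : Continuous s := LinearMap.continuous_of_finiteDimensional _
  have hcv : ∀ g : T.G n, Convex ℝ {y : E | T.q n y = g ∧ ‖y‖ < ‖g‖ + ε} := by
    intro g y hy y' hy' a b ha hb hab
    refine ⟨?_, ?_⟩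
    · rw [map_add, map_smul, map_smul, hy.1, hy'.1, ← add_smul, hab, one_smul]
    · refine lt_of_le_of_lt (norm_add_le _ _) ?_
      rw [norm_smul, norm_smul, Real.norm_of_nonneg ha, Real.norm_of_nonneg hb]
      have h1 := hy.2
      have h2 := hy'.2
      have e : ‖g‖ + ε = a * (‖g‖ + ε) + b * (‖g‖ + ε) := by rw [← add_mul, hab, one_mul]
      rw [e]
      rcases eq_or_lt_of_le ha with h0 | h0
      · have hb1 : b = 1 := by linarith
        rw [← h0, hb1]
        linarith
      · have := mul_lt_mul_of_pos_left h1 h0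
        have := mul_le_mul_of_nonneg_left h2.le hb
        linarith
  have hloc : ∀ g : T.G n, ∃ U ∈ 𝓝 g, ∃ L : T.G n → E, ContinuousOn L U ∧
      ∀ g' ∈ U, L g' ∈ {y : E | T.q n y = g' ∧ ‖y‖ < ‖g'‖ + ε} := by
    intro g
    obtain ⟨y, hy, hyn⟩ := T.q_lift n g ε hε
    have hc : Continuous fun g' => y + s (g' - g) :=
      continuous_const.add (hsc.comp (continuous_id.sub continuous_const))
    have h1 : ∀ᶠ g' in 𝓝 g, ‖y + s (g' - g)‖ < ‖g'‖ + ε := by
      have h2 : Tendsto (fun g' => ‖y + s (g' - g)‖) (𝓝 g) (𝓝 (‖y + s (g - g)‖)) :=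
        hc.norm.tendsto g
      have h3 : Tendsto (fun g' : T.G n => ‖g'‖ + ε) (𝓝 g) (𝓝 (‖g‖ + ε)) :=
        (continuous_norm.add continuous_const).tendsto g
      refine h2.eventually_lt h3 ?_
      rw [sub_self, map_zero, add_zero]
      exact hyn
    refine ⟨_, h1, fun g' => y + s (g' - g), hc.continuousOn, fun g' hg' => ⟨?_, hg'⟩⟩
    rw [map_add, hs', hy]
    abel
  obtain ⟨L, hL⟩ := exists_continuous_forall_mem_convex_of_local hcv hloc
  exact ⟨L, L.continuous, hL⟩

end Tower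

end Pool.Agent.D0H27.CAP
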