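import Pool.Agent.D0H27.CAP.Space
import Pool.Agent.D0H27.CAP.Thread

/-!
The decreasing sequence of subspaces of finite codimension of the space `ES`.
-/

set_option autoImplicit false

open Filter Topology Finset
open scoped ENNReal

namespace Pool.Agent.D0H27.CAP

/-- the first blocks -/
noncomputable def Ph (n : ℕ) : ES →ₗ[ℝ] ((p : Fin n × Fin n) → Blk ((p.1 : ℕ), (p.2 : ℕ))) where
  toFun y := fun p => (y : Amb) ((p.1 : ℕ), (p.2 : ℕ))
  map_add' _ _ := rfl
  map_smul' _ _ := rfl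

/-- the subspaces -/
noncomputable def Kn (n : ℕ) : Submodule ℝ ES := LinearMap.ker (Ph n)

lemma mem_Kn {n : ℕ} {y : ES} : y ∈ Kn n ↔ ∀ q : ℕ × ℕ, q.1 < n → q.2 < n → (y : Amb) q = 0 := by
  unfold Kn
  rw [LinearMap.mem_ker]
  constructor
  · intro h q h1 h2
    exact congrFun h ((⟨q.1, h1⟩, ⟨q.2, h2⟩) : Fin n × Fin n)
  · intro h
    funext p
    exact h (p.1, p.2) p.1.2 p.2.2

lemma isClosed_Kn (n : ℕ) : IsClosed (Kn n : Set ES) := by
  have h : (Kn n : Set ES) = ⋂ q : ℕ × ℕ, ⋂ _ : q.1 < n, ⋂ _ : q.2 < n,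
      {y : ES | (y : Amb) q = 0} := by
    ext y
    simp only [Set.mem_iInter]
    exact mem_Kn
  rw [h]
  refine isClosed_iInter fun q => isClosed_iInter fun _ => isClosed_iInter fun _ => ?_
  exact isClosed_eq ((lp.evalCLM ℝ Blk 1 q).continuous.comp continuous_subtype_val)
    continuous_const

lemma finite_Kn (n : ℕ) : FiniteDimensional ℝ (ES ⧸ Kn n) :=
  (Ph n).quotKerEquivRange.symm.finiteDimensional

lemma cX_congr {y z : Amb} {k n : ℕ} (h : y (k, n) = z (k, n)) (i j : ℕ) :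
    cX k n i j y = cX k n i j z := by
  by_cases hh : i < 2 ^ (k + 2) ∧ j < 2 ^ n
  · rw [cX_apply hh.1 hh.2, cX_apply hh.1 hh.2, h]
  · rw [cX_out hh, cX_out hh]

theorem thread_ES (z : ℕ → ES) (hb : ∃ C : ℝ, ∀ n, ‖z n‖ ≤ C)
    (hz : ∀ n, z (n + 1) - z n ∈ Kn n) : ∃ y, ∀ n, y - z n ∈ Kn n := by
  obtain ⟨C, hC⟩ := hb
  have hst : ∀ n m (q : ℕ × ℕ), n ≤ m → q.1 < n → q.2 < n → (z m : Amb) q = (z n : Amb) q := by
    intro n m q hnm h1 h2
    induction m, hnm using Nat.le_induction with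
    | base => rfl
    | succ m hm ih =>
      have h3 := mem_Kn.1 (hz m) q (by omega) (by omega)
      have h4 : (z (m + 1) : Amb) q - (z m : Amb) q = 0 := h3
      rw [← ih, sub_eq_zero.1 h4]
  let N : ℕ × ℕ → ℕ := fun q => max q.1 q.2 + 1
  have hN : ∀ q : ℕ × ℕ, q.1 < N q ∧ q.2 < N q := fun q =>
    ⟨Nat.lt_succ_of_le (le_max_left _ _), Nat.lt_succ_of_le (le_max_right _ _)⟩
  let w : ∀ q, Blk q := fun q => (z (N q) : Amb) q
  have hw : ∀ m q, N q ≤ m → w q = (z m : Amb) q := fun m q hm =>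
    (hst (N q) m q hm (hN q).1 (hN q).2).symm
  have hwm : Memℓp w 1 := by
    refine memℓp_gen' (C := C) fun s => ?_
    have h1 : ∀ q ∈ s, N q ≤ s.sup N := fun q hq => Finset.le_sup hq
    have h2 : ∀ q ∈ s, ‖w q‖ ^ (1 : ℝ≥0∞).toReal = ‖(z (s.sup N) : Amb) q‖ := by
      intro q hq
      rw [hw _ q (h1 q hq)]
      simp
    rw [Finset.sum_congr rfl h2]
    refine le_trans ?_ (hC (s.sup N))
    have h3 : ‖z (s.sup N)‖ = ∑' q, ‖(z (s.sup N) : Amb) q‖ := norm_eq _
    rw [h3]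
    exact (summable_norm _).sum_le_tsum s (fun _ _ => norm_nonneg _)
  let y : Amb := ⟨w, hwm⟩
  have hy : ∀ m q, N q ≤ m → y q = (z m : Amb) q := hw
  have hc : ∀ k n i j, ∀ᶠ m in atTop, cX k n i j y = cX k n i j (z m : Amb) := by
    intro k n i j
    filter_upwards [eventually_ge_atTop (N (k, n))] with m hm
    exact cX_congr (hy m (k, n) hm) i j
  have hrel : Rel y := by
    refine ⟨fun k n i j hj => ?_, fun n j x => ?_⟩
    · obtain ⟨m, h1, h2, h3⟩ := ((hc k n i j).and ((hc k (n + 1) i (2 * j)).and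
        (hc k (n + 1) i (2 * j + 1)))).exists
      rw [h1, h2, h3]
      exact (z m).2.1 k n i j hj
    · have h1 : ∀ᶠ m in atTop, ∀ k ∈ range (x.1 + 2), ∀ i ∈ range (2 ^ (k + 2)),
          cX k n i j y = cX k n i j (z m : Amb) := by
        rw [Filter.eventually_all_finset]
        intro k _
        rw [Filter.eventually_all_finset]
        intro i _
        exact hc k n i j
      obtain ⟨m, hm⟩ := h1.exists
      rw [← (z m).2.2 n j x]
      refine Finset.sum_congr rfl fun k hk => Finset.sum_congr rfl fun i hi => ?_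
      rw [hm k hk i hi]
  refine ⟨⟨y, hrel⟩, fun n => mem_Kn.2 fun q h1 h2 => ?_⟩
  show y q - (z n : Amb) q = 0
  rw [hy (N q) q le_rfl, sub_eq_zero]
  have h3 : N q ≤ n := by
    show max q.1 q.2 + 1 ≤ n
    exact Nat.succ_le_of_lt (max_lt h1 h2)
  exact (hst (N q) n q h3 (hN q).1 (hN q).2).symm

/-- the norm of the first blocks -/
noncomputable def pn (n : ℕ) (y : Amb) : ℝ := ∑ q ∈ range n ×ˢ range n, ‖y q‖

lemma pn_le (n : ℕ) (y : Amb) : pn n y ≤ ‖y‖ := by
  rw [norm_eq]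
  exact (summable_norm _).sum_le_tsum _ (fun _ _ => norm_nonneg _)

lemma tn_sub (n : ℕ) (y z : Amb) : ‖y - z‖ - pn n (y - z) ≤ (‖y‖ - pn n y) + (‖z‖ - pn n z) := by
  have h : ∀ v : Amb, ‖v‖ - pn n v =
      ∑' q : ↑(((range n ×ˢ range n : Finset (ℕ × ℕ)) : Set (ℕ × ℕ))ᶜ), ‖v (q : ℕ × ℕ)‖ := by
    intro v
    rw [norm_eq, ← (summable_norm v).sum_add_tsum_compl (s := range n ×ˢ range n)]
    unfold pn
    ring
  have hs : ∀ v : Amb, Summable fun
      q : ↑(((range n ×ˢ range n : Finset (ℕ × ℕ)) : Set (ℕ × ℕ))ᶜ) => ‖v (q : ℕ × ℕ)‖ :=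
    fun v => (summable_norm v).subtype _
  rw [h, h, h]
  refine ((hs (y - z)).tsum_le_tsum (fun q => ?_) ((hs y).add (hs z))).trans
    ((hs y).tsum_add (hs z)).le
  exact norm_sub_le _ _

lemma tendsto_pn (y : Amb) : Tendsto (fun n => pn n y) atTop (𝓝 ‖y‖) := by
  rw [norm_eq]
  refine (summable_norm y).hasSum.comp ?_
  refine Filter.tendsto_atTop_finset_of_monotone (fun m n hmn => ?_) (fun q => ?_)
  · exact Finset.product_subset_product (Finset.range_mono hmn) (Finset.range_mono hmn)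
  · refine ⟨max q.1 q.2 + 1, ?_⟩
    rw [Finset.mem_product, mem_range, mem_range]
    exact ⟨Nat.lt_succ_of_le (le_max_left _ _), Nat.lt_succ_of_le (le_max_right _ _)⟩

theorem kk_ES (y : ES) (z r : ℕ → ES) (h1 : ∀ n, z n - y - r n ∈ Kn n)
    (h2 : Tendsto r atTop (𝓝 0)) (h3 : ∀ ε : ℝ, 0 < ε → ∀ᶠ n in atTop, ‖z n‖ ≤ ‖y‖ + ε) :
    Tendsto z atTop (𝓝 y) := by
  have key : ∀ n, ‖z n - y‖ ≤ 2 * ‖r n‖ + (‖z n‖ - ‖y‖) + 2 * (‖y‖ - pn n (y : Amb)) := by
    intro n
    have e : ∀ q ∈ range n ×ˢ range n, (z n : Amb) q - (y : Amb) q = (r n : Amb) q := by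
      intro q hq
      rw [Finset.mem_product, mem_range, mem_range] at hq
      have h4 := mem_Kn.1 (h1 n) q hq.1 hq.2
      have h5 : (z n : Amb) q - (y : Amb) q - (r n : Amb) q = 0 := h4
      exact sub_eq_zero.1 h5
    have e1 : pn n ((z n : Amb) - (y : Amb)) = pn n (r n : Amb) := by
      unfold pn
      refine Finset.sum_congr rfl fun q hq => ?_
      rw [← e q hq]
      rfl
    have e2 : pn n (y : Amb) ≤ pn n (z n : Amb) + pn n (r n : Amb) := by
      unfold pn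
      rw [← Finset.sum_add_distrib]
      refine Finset.sum_le_sum fun q hq => ?_
      have : (y : Amb) q = (z n : Amb) q - (r n : Amb) q := by
        rw [← e q hq]; abel
      rw [this]
      exact norm_sub_le _ _
    have e3 := tn_sub n (z n : Amb) (y : Amb)
    have e4 := pn_le n (r n : Amb)
    have e5 : ‖z n - y‖ = ‖(z n : Amb) - (y : Amb)‖ := rfl
    have e6 : ‖z n‖ = ‖(z n : Amb)‖ := rfl
    have e7 : ‖y‖ = ‖(y : Amb)‖ := rfl
    have e8 : ‖r n‖ = ‖(r n : Amb)‖ := rfl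
    rw [e5, e6, e7, e8]
    rw [e1] at e3
    linarith
  rw [tendsto_iff_norm_sub_tendsto_zero]
  rw [Metric.tendsto_nhds]
  intro ε hε
  have hr : Tendsto (fun n => 2 * ‖r n‖) atTop (𝓝 0) := by
    have := h2.norm.const_mul 2
    rwa [norm_zero, mul_zero] at this
  have ht : Tendsto (fun n => 2 * (‖y‖ - pn n (y : Amb))) atTop (𝓝 0) := by
    have := ((tendsto_const_nhds (x := ‖y‖)).sub (tendsto_pn (y : Amb))).const_mul 2
    have e7 : ‖y‖ = ‖(y : Amb)‖ := rfl
    rwa [e7, sub_self, mul_zero] at this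
  filter_upwards [h3 (ε / 3) (by positivity), hr.eventually_lt_const (show 0 < ε / 3 by positivity),
    ht.eventually_lt_const (show 0 < ε / 3 by positivity)] with n a b c
  rw [dist_zero_right, norm_norm]
  have := key n
  linarith

/-- the tower of the space -/
noncomputable def TT : Tower ES where
  K := Kn
  closed := isClosed_Kn
  anti n y hy := mem_Kn.2 fun q h1 h2 => mem_Kn.1 hy q (by omega) (by omega)
  fin := finite_Kn
  thread := thread_ES
  kk := kk_ES

end Pool.Agent.D0H27.CAP
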