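import Pool.Agent.D0H27.CAP.Space
import Pool.Agent.R884.AffB.Core

/-!
The space fails the approximation property.
-/

set_option autoImplicit false

open Filter Topology Finset
open scoped ENNReal

namespace Pool.Agent.D0H27.CAP

/-- sums over the index set -/
lemma summable_valid (c : ℕ → ℝ) (hc : ∀ k, 0 ≤ c k)
    (h : Summable (fun k : ℕ => (2 : ℝ) ^ (k + 2) * c k)) :
    Summable (fun g : ℕ × ℕ => if g.2 < 2 ^ (g.1 + 2) then c g.1 else 0) := by
  have hnn : 0 ≤ (fun g : ℕ × ℕ => if g.2 < 2 ^ (g.1 + 2) then c g.1 else 0) := by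
    intro g
    show 0 ≤ if g.2 < 2 ^ (g.1 + 2) then c g.1 else 0
    split_ifs
    · exact hc _
    · exact le_rfl
  have hout : ∀ k : ℕ, ∀ y ∉ Finset.range (2 ^ (k + 2)),
      (fun y : ℕ => if (k, y).2 < 2 ^ ((k, y).1 + 2) then c (k, y).1 else 0) y = 0 := by
    intro k y hy
    rw [Finset.mem_range] at hy
    show (if y < 2 ^ (k + 2) then c k else 0) = 0
    rw [if_neg hy]
  rw [summable_prod_of_nonneg hnn]
  constructor
  · intro k
    exact summable_of_ne_finset_zero (s := Finset.range (2 ^ (k + 2))) (hout k)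
  · have e : ∀ k : ℕ, ∑' y : ℕ, (if (k, y).2 < 2 ^ ((k, y).1 + 2) then c (k, y).1 else 0) =
        (2 : ℝ) ^ (k + 2) * c k := by
      intro k
      rw [tsum_eq_sum (s := Finset.range (2 ^ (k + 2))) (hout k)]
      have e2 : ∀ y ∈ Finset.range (2 ^ (k + 2)),
          (if (k, y).2 < 2 ^ ((k, y).1 + 2) then c (k, y).1 else 0) = c k := by
        intro y hy
        rw [Finset.mem_range] at hy
        show (if y < 2 ^ (k + 2) then c k else 0) = c k
        rw [if_pos hy]
      rw [Finset.sum_congr rfl e2, Finset.sum_const, Finset.card_range, nsmul_eq_mul]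
      push_cast
      rfl
    simp only [e]
    exact h

lemma sqrt_pow_two (k : ℕ) : Real.sqrt ((2 : ℝ) ^ k) = Real.sqrt 2 ^ k := by
  rw [Real.sqrt_eq_iff_mul_self_eq (by positivity) (by positivity), ← mul_pow,
    Real.mul_self_sqrt (by norm_num)]

lemma summable_poly_geom (m : ℕ) (x : ℝ) (hx0 : 0 < x) (hx1 : x < 1) :
    Summable (fun k : ℕ => (k + 1 : ℝ) ^ m * x ^ k) := by
  have h1 := summable_pow_mul_geometric_of_norm_lt_one (R := ℝ) m
    (r := x) (by rw [Real.norm_eq_abs, abs_of_pos hx0]; exact hx1)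
  have h2 := ((summable_nat_add_iff 1).mpr h1).mul_left x⁻¹
  refine h2.congr (fun k => ?_)
  rw [pow_succ]
  push_cast
  field_simp

lemma exp_eighth : Real.exp (1 / 8) < 1.15 := by
  have h1 : Real.exp (1 / 8) ^ 8 = Real.exp 1 := by
    rw [← Real.exp_nat_mul]; norm_num
  have h2 := Real.exp_one_lt_d9
  by_contra h
  push Not at h
  have h3 : (1.15 : ℝ) ^ 8 ≤ Real.exp (1 / 8) ^ 8 := pow_le_pow_left₀ (by norm_num) h 8
  rw [h1] at h3
  norm_num at h3 h2
  linarith

lemma exp_quarter : Real.exp (1 / 4) < 1.33 := by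
  have h1 : Real.exp (1 / 4) = Real.exp (1 / 8) * Real.exp (1 / 8) := by
    rw [← Real.exp_add]; norm_num
  have h2 := exp_eighth
  have h3 := Real.exp_pos (1 / 8)
  rw [h1]
  nlinarith

lemma sqrt_two_lt : Real.sqrt 2 < 1.42 := by
  rw [Real.sqrt_lt' (by norm_num)]
  norm_num

/-- the norms of the vectors -/
noncomputable def ub (k : ℕ) : ℝ := 4 * ((k : ℝ) + 2) * bk k

lemma ub_nonneg (k : ℕ) : 0 ≤ ub k := by
  unfold ub
  have := bk_nonneg k
  positivity

lemma ub_le (k : ℕ) : ub k ≤ 48 * ((k : ℝ) + 1) ^ 2 * (Real.sqrt 2 / 4) ^ k := by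
  unfold ub bk
  rw [sqrt_pow_two, div_pow]
  have h1 : (k : ℝ) + 2 ≤ 2 * (k + 1) := by
    have : (0 : ℝ) ≤ k := Nat.cast_nonneg k
    linarith
  have h2 : 0 ≤ ((k : ℝ) + 1) * (Real.sqrt 2 ^ k / 4 ^ k) := by positivity
  calc _ = 24 * ((k : ℝ) + 2) * (((k : ℝ) + 1) * (Real.sqrt 2 ^ k / 4 ^ k)) := by ring
    _ ≤ 24 * (2 * ((k : ℝ) + 1)) * (((k : ℝ) + 1) * (Real.sqrt 2 ^ k / 4 ^ k)) :=
        mul_le_mul_of_nonneg_right (by linarith) h2
    _ = _ := by ring

lemma summable_one : Summable (fun k : ℕ => (2 : ℝ) ^ (k + 2) * (Real.exp (1 / 8) ^ k * ub k)) := by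
  set x : ℝ := Real.exp (1 / 8) * Real.sqrt 2 / 2 with hx
  have hx0 : 0 < x := by positivity
  have hx1 : x < 1 := by
    rw [hx, div_lt_one two_pos]
    have h1 := exp_eighth
    have h2 := sqrt_two_lt
    have h3 := Real.exp_pos (1 / 8)
    have h4 := Real.sqrt_nonneg 2
    nlinarith
  refine Summable.of_nonneg_of_le (fun k => ?_) (fun k => ?_)
    ((summable_poly_geom 2 x hx0 hx1).mul_left 192)
  · have := ub_nonneg k
    positivity
  · have h1 := ub_le k
    have h2 : x ^ k = 2 ^ k * (Real.exp (1 / 8) ^ k * (Real.sqrt 2 / 4) ^ k) := by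
      rw [← mul_pow, ← mul_pow, hx]
      congr 1
      ring
    calc _ ≤ (2 : ℝ) ^ (k + 2) * (Real.exp (1 / 8) ^ k *
          (48 * ((k : ℝ) + 1) ^ 2 * (Real.sqrt 2 / 4) ^ k)) := by gcongr
      _ = 192 * (((k : ℝ) + 1) ^ 2 * x ^ k) := by rw [h2, pow_add]; ring

/-- the scaling of the test vectors -/
noncomputable def mu (k : ℕ) : ℝ := (1 / 2) ^ k * Real.exp (-(1 / 4)) ^ k

lemma mu_pos (k : ℕ) : 0 < mu k := by unfold mu; positivity

lemma tendsto_ub : Tendsto (fun k => (mu k)⁻¹ * ub k) atTop (𝓝 0) := by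
  set x : ℝ := Real.exp (1 / 4) * Real.sqrt 2 / 2 with hx
  have hx0 : 0 < x := by positivity
  have hx1 : x < 1 := by
    rw [hx, div_lt_one two_pos]
    have h1 := exp_quarter
    have h2 := sqrt_two_lt
    have h3 := Real.exp_pos (1 / 4)
    have h4 := Real.sqrt_nonneg 2
    nlinarith
  have h1 := ((summable_poly_geom 2 x hx0 hx1).mul_left 48).tendsto_atTop_zero
  refine squeeze_zero (fun k => ?_) (fun k => ?_) h1
  · have := ub_nonneg k
    have := mu_pos k
    positivity
  · have h2 := ub_le k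
    have h3 : (mu k)⁻¹ = 2 ^ k * Real.exp (1 / 4) ^ k := by
      unfold mu
      rw [mul_inv, ← inv_pow, ← inv_pow, Real.exp_neg, inv_inv]
      norm_num
    have h4 : x ^ k = 2 ^ k * (Real.exp (1 / 4) ^ k * (Real.sqrt 2 / 4) ^ k) := by
      rw [← mul_pow, ← mul_pow, hx]
      congr 1
      ring
    rw [h3]
    calc _ ≤ 2 ^ k * Real.exp (1 / 4) ^ k * (48 * ((k : ℝ) + 1) ^ 2 * (Real.sqrt 2 / 4) ^ k) := by
          gcongr
      _ = 48 * (((k : ℝ) + 1) ^ 2 * x ^ k) := by rw [h4]; ring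

lemma summable_two : Summable (fun k : ℕ => (2 : ℝ) ^ (k + 2) * (Real.exp (1 / 8) ^ k * mu k)) := by
  have h1 : Summable (fun k : ℕ => (4 : ℝ) * Real.exp (-(1 / 8)) ^ k) := by
    refine (summable_geometric_of_lt_one (Real.exp_pos _).le ?_).mul_left 4
    rw [Real.exp_lt_one_iff]
    norm_num
  refine h1.congr fun k => ?_
  unfold mu
  have e : Real.exp (-(1 / 8)) = 2 * (Real.exp (1 / 8) * (1 / 2 * Real.exp (-(1 / 4)))) := by
    have : Real.exp (-(1 / 8)) = Real.exp (1 / 8) * Real.exp (-(1 / 4)) := by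
      rw [← Real.exp_add]; norm_num
    rw [this]; ring
  rw [e, mul_pow, mul_pow, mul_pow, pow_add]
  ring

/-- the functional of an index is bounded -/
lemma cX_root_le (k i : ℕ) (y : Amb) : |cX k 0 i 0 y| ≤ Real.exp (1 / 8) ^ k * ‖y‖ := by
  have h1 := wt_cX_le k 0 i 0 y
  have h2 : ‖y (k, 0)‖ ≤ ‖y‖ := by
    rw [norm_eq]
    exact (summable_norm y).le_tsum _ (fun _ _ => norm_nonneg _)
  have h3 : wt k 0 0 * Real.exp (1 / 8) ^ k = 1 := by
    unfold wt
    rw [← Real.exp_nat_mul, pow_zero, one_mul, ← Real.exp_add, pow_zero]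
    have : -((k : ℝ) * (((0 : ℕ) : ℝ) + 1) / (8 * 1)) + (k : ℝ) * (1 / 8) = 0 := by
      rw [Nat.cast_zero]; ring
    rw [this, Real.exp_zero]
  have h4 : 0 < Real.exp (1 / 8) ^ k := by positivity
  calc |cX k 0 i 0 y| = Real.exp (1 / 8) ^ k * (wt k 0 0 * |cX k 0 i 0 y|) := by
        rw [← mul_assoc, mul_comm (Real.exp (1 / 8) ^ k), h3, one_mul]
    _ ≤ Real.exp (1 / 8) ^ k * ‖y‖ := mul_le_mul_of_nonneg_left (h1.trans h2) h4.le

lemma summable_quarter : Summable fun n : ℕ => (3 / 4 : ℝ) ^ n :=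
  summable_geometric_of_lt_one (by norm_num) (by norm_num)

lemma tsum_quarter : ∑' n : ℕ, (3 / 4 : ℝ) ^ n = 4 := by
  rw [tsum_geometric_of_lt_one (by norm_num) (by norm_num)]
  norm_num

/-- the bound of the blocks of a vector -/
noncomputable def bu (g : ℕ × ℕ) (q : ℕ × ℕ) : ℝ :=
  (if q.1 < g.1 + 2 then bk g.1 else 0) * (3 / 4) ^ q.2

lemma summable_level (g : ℕ × ℕ) : Summable fun k : ℕ => if k < g.1 + 2 then bk g.1 else 0 :=
  summable_of_ne_finset_zero (s := range (g.1 + 2)) (fun k hk => by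
    rw [mem_range] at hk
    exact if_neg hk)

lemma tsum_level (g : ℕ × ℕ) : ∑' k : ℕ, (if k < g.1 + 2 then bk g.1 else 0) =
    ((g.1 : ℝ) + 2) * bk g.1 := by
  rw [tsum_eq_sum (s := range (g.1 + 2)) (fun k hk => by
    rw [mem_range] at hk
    exact if_neg hk), Finset.sum_congr rfl (fun k hk => if_pos (mem_range.1 hk)),
    Finset.sum_const, card_range, nsmul_eq_mul]
  push_cast
  ring

lemma level_nonneg (g : ℕ × ℕ) (k : ℕ) : 0 ≤ if k < g.1 + 2 then bk g.1 else 0 := by
  split_ifs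
  · exact bk_nonneg _
  · exact le_rfl

lemma summable_bu (g : ℕ × ℕ) : Summable (bu g) :=
  (summable_level g).mul_of_nonneg summable_quarter (fun k => level_nonneg g k)
    (fun n => by positivity)

lemma tsum_bu (g : ℕ × ℕ) : ∑' q, bu g q = ub g.1 := by
  have h := tsum_mul_tsum_of_summable_norm (summable_level g).norm summable_quarter.norm
  rw [tsum_level, tsum_quarter] at h
  unfold bu ub
  rw [← h]
  ring

lemma bound_u (g q : ℕ × ℕ) :
    ‖mkB ((fun (k _ i _ : ℕ) => am g (k, i)) q.1 q.2) q.1 q.2‖ ≤ bu g q := by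
  refine norm_mkB_le _ _ _ _ (mul_nonneg (level_nonneg g q.1) (by positivity)) fun i hi j hj => ?_
  unfold bu
  show wt q.1 q.2 j * |am g (q.1, i)| ≤ _
  by_cases h : q.1 < g.1 + 2
  · rw [if_pos h, mul_comm]
    exact mul_le_mul (am_bound g _) (wt_le _ _ _) (wt_pos _ _ _).le (bk_nonneg _)
  · rw [if_neg h, am_far g (q.1, i) (by show g.1 + 1 < q.1; omega), abs_zero, mul_zero, zero_mul]

/-- the vectors of the ambient space -/
noncomputable def uA (g : ℕ × ℕ) : Amb :=
  mk (fun k _ i _ => am g (k, i)) (bu g) (summable_bu g) (bound_u g)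

lemma cX_uA (g : ℕ × ℕ) {k n i j : ℕ} (hj : j < 2 ^ n) : cX k n i j (uA g) = am g (k, i) := by
  by_cases hi : i < 2 ^ (k + 2)
  · exact cX_mk _ _ _ _ hi hj
  · rw [cX_out (fun h => hi h.1), am_col g (k, i) hi]

lemma norm_uA (g : ℕ × ℕ) : ‖uA g‖ ≤ ub g.1 := by
  rw [← tsum_bu g]
  exact norm_mk_le _ _ _ _

lemma rel_uA (g : ℕ × ℕ) : Rel (uA g) := by
  refine ⟨fun k n i j hj => ?_, fun n j x => ?_⟩
  · have h1 : 2 * j < 2 ^ (n + 1) := by rw [pow_succ]; omega
    have h2 : 2 * j + 1 < 2 ^ (n + 1) := by rw [pow_succ]; omega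
    rw [cX_uA g hj, cX_uA g h1, cX_uA g h2]
    ring
  · by_cases hj : j < 2 ^ n
    · rw [← am_sq g x]
      refine Finset.sum_congr rfl fun k _ => Finset.sum_congr rfl fun i _ => ?_
      rw [cX_uA g hj]
    · refine Finset.sum_eq_zero fun k _ => Finset.sum_eq_zero fun i _ => ?_
      rw [cX_out (fun h => hj h.2), zero_mul]

/-- the vectors -/
noncomputable def u (g : ℕ × ℕ) : ES := ⟨uA g, rel_uA g⟩

lemma norm_u (g : ℕ × ℕ) : ‖u g‖ ≤ ub g.1 := norm_uA g

lemma u_out (g : ℕ × ℕ) (h : ¬ g.2 < 2 ^ (g.1 + 2)) : u g = 0 := by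
  apply Subtype.ext
  refine amb_ext fun k n i j hi hj => ?_
  show cX k n i j (uA g) = cX k n i j (0 : Amb)
  rw [cX_uA g hj, am_row g _ h, map_zero]

/-- the functionals -/
noncomputable def ev (g : ℕ × ℕ) (y : ES) : ℝ := cX g.1 0 g.2 0 (y : Amb)

lemma ev_le (g : ℕ × ℕ) (y : ES) : |ev g y| ≤ Real.exp (1 / 8) ^ g.1 * ‖y‖ := cX_root_le _ _ _

lemma ev_out (g : ℕ × ℕ) (h : ¬ g.2 < 2 ^ (g.1 + 2)) (y : ES) : ev g y = 0 :=
  cX_out (fun h' => h h'.1) _

lemma summable_main : Summable (fun g : ℕ × ℕ => if g.2 < 2 ^ (g.1 + 2) then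
    Real.exp (1 / 8) ^ g.1 * ub g.1 else 0) :=
  summable_valid (fun k => Real.exp (1 / 8) ^ k * ub k)
    (fun k => mul_nonneg (by positivity) (ub_nonneg k)) summable_one

lemma summable_mu : Summable (fun g : ℕ × ℕ => if g.2 < 2 ^ (g.1 + 2) then
    Real.exp (1 / 8) ^ g.1 * mu g.1 else 0) :=
  summable_valid (fun k => Real.exp (1 / 8) ^ k * mu k)
    (fun k => mul_nonneg (by positivity) (mu_pos k).le) summable_two

/-- the relation of the vectors -/
theorem hasSum_rel (y : ES) : HasSum (fun g => ev g y • u g) 0 := by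
  have hs : Summable (fun g => ev g y • u g) := by
    refine Summable.of_norm_bounded (summable_main.mul_left ‖y‖) fun g => ?_
    rw [norm_smul, Real.norm_eq_abs]
    split_ifs with h
    · calc |ev g y| * ‖u g‖ ≤ (Real.exp (1 / 8) ^ g.1 * ‖y‖) * ub g.1 :=
            mul_le_mul (ev_le g y) (norm_u g) (norm_nonneg _) (by positivity)
        _ = _ := by ring
    · rw [ev_out g h, abs_zero, zero_mul, mul_zero]
  have h0 : ∑' g, ev g y • u g = 0 := by
    apply Subtype.ext
    refine amb_ext fun k n i j hi hj => ?_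
    have h1 := (hs.hasSum.mapL (Es.subtypeL)).mapL (cX k n i j)
    have h2 : HasSum (fun g : ℕ × ℕ => ev g y * am g (k, i))
        (cX k n i j ((∑' g, ev g y • u g : ES) : Amb)) := by
      refine h1.congr_fun fun g => ?_
      show ev g y * am g (k, i) = cX k n i j (Es.subtypeL (ev g y • u g))
      rw [map_smul, map_smul, smul_eq_mul]
      congr 1
      exact (cX_uA g hj).symm
    have h3 : HasSum (fun g : ℕ × ℕ => ev g y * am g (k, i))
        (∑ g ∈ range (k + 2) ×ˢ range (2 ^ (k + 4)), ev g y * am g (k, i)) :=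
      hasSum_sum_of_ne_finset_zero fun g hg => by
        rw [Finset.mem_product, mem_range, mem_range, not_and_or] at hg
        by_cases hk : g.1 < k + 2
        · have h4 : ¬ g.2 < 2 ^ (k + 4) := by
            rcases hg with h | h
            · exact absurd hk h
            · exact h
          rw [am_row g (k, i), mul_zero]
          intro h5
          apply h4
          exact lt_of_lt_of_le h5 (Nat.pow_le_pow_right (by norm_num) (by omega))
        · rw [am_far' g (k, i) (by show k + 1 < g.1; omega), mul_zero]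
    have h5 : ∑ g ∈ range (k + 2) ×ˢ range (2 ^ (k + 4)), ev g y * am g (k, i) = 0 := by
      have h6 := y.2.2 0 0 (k, i)
      rw [Finset.sum_product]
      rw [← h6]
      symm
      refine Finset.sum_congr rfl fun k' hk' => ?_
      rw [mem_range] at hk'
      refine Finset.sum_subset ?_ ?_
      · intro i' hi'
        rw [mem_range] at hi' ⊢
        exact lt_of_lt_of_le hi' (Nat.pow_le_pow_right (by norm_num) (by
          have : k' < k + 2 := hk'
          omega))
      · intro i' _ hi'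
        rw [mem_range] at hi'
        rw [am_row (k', i') _ hi', mul_zero]
    rw [h5] at h3
    rw [h2.unique h3]
    show (0 : ℝ) = cX k n i j (0 : Amb)
    rw [map_zero]
  rw [← h0]
  exact hs.hasSum

/-- the trace of a finite rank operator is zero -/
theorem trace_zero (T : ES →L[ℝ] ES)
    (hT : FiniteDimensional ℝ (LinearMap.range (T : ES →ₗ[ℝ] ES))) :
    HasSum (fun g => ev g (T (u g))) 0 := by
  obtain ⟨n, l, v, hlv⟩ := Pool.Agent.R884.AffB.finite_rank_decomp (𝕜 := ℝ) T hT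
  have h1 : ∀ j, HasSum (fun g => l j (u g) * ev g (v j)) 0 := by
    intro j
    have h2 := (hasSum_rel (v j)).mapL (l j)
    rw [map_zero] at h2
    refine h2.congr_fun fun g => ?_
    show l j (u g) * ev g (v j) = l j (ev g (v j) • u g)
    rw [map_smul, smul_eq_mul, mul_comm]
  have h3 : HasSum (fun g => ∑ j, l j (u g) * ev g (v j)) (∑ _j : Fin n, (0 : ℝ)) :=
    hasSum_sum fun j _ => h1 j
  rw [Finset.sum_const_zero] at h3
  refine h3.congr_fun fun g => ?_
  show cX g.1 0 g.2 0 ((T (u g) : ES) : Amb) = _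
  rw [hlv]
  have e : ((∑ j, l j (u g) • v j : ES) : Amb) = ∑ j, l j (u g) • (v j : Amb) := by
    rw [← Es.subtypeL_apply, map_sum]
    rfl
  rw [e, map_sum]
  refine Finset.sum_congr rfl fun j _ => ?_
  rw [map_smul, smul_eq_mul]
  rfl

/-- the trace of the identity is one -/
theorem trace_one : HasSum (fun g => ev g (u g)) 1 := by
  have he : ∀ g, ev g (u g) = am g g := fun g => by
    show cX g.1 0 g.2 0 (uA g) = _
    rw [cX_uA g (by norm_num)]
  have hs : Summable (fun g => am g g) := by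
    refine Summable.of_norm_bounded summable_main fun g => ?_
    rw [Real.norm_eq_abs]
    split_ifs with h
    · rw [← he g]
      refine (ev_le g (u g)).trans ?_
      exact mul_le_mul_of_nonneg_left (norm_u g) (by positivity)
    · rw [am_row g g h, abs_zero]
  have h1 : ∑' g : ℕ × ℕ, am g g = 1 := by
    rw [hs.tsum_prod]
    have h2 : ∀ k, ∑' i, am (k, i) (k, i) = if k = 0 then 1 else 0 := by
      intro k
      rw [← am_diag k]
      refine tsum_eq_sum fun i hi => ?_
      rw [mem_range] at hi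
      exact am_row (k, i) _ hi
    simp only [h2]
    rw [tsum_ite_eq]
  simp only [he]
  rw [← h1]
  exact hs.hasSum

/-- the space fails the approximation property -/
theorem not_AP : ¬ Pool.Agent.R884.AffB.HasAP ℝ ES := by
  intro hAP
  set v : ℕ × ℕ → ES := fun g => (mu g.1)⁻¹ • u g with hv
  have hvt : Tendsto v cofinite (𝓝 0) := by
    rw [Metric.tendsto_nhds]
    intro ε hε
    obtain ⟨N, hN⟩ := eventually_atTop.1 (tendsto_ub.eventually_lt_const hε)
    rw [eventually_cofinite]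
    refine (range N ×ˢ range (2 ^ (N + 2))).finite_toSet.subset fun g hg => ?_
    by_contra hc
    apply hg
    rw [dist_zero_right]
    show ‖(mu g.1)⁻¹ • u g‖ < ε
    by_cases h : g.2 < 2 ^ (g.1 + 2)
    · have h1 : N ≤ g.1 := by
        by_contra h2
        push Not at h2
        apply hc
        rw [Finset.mem_coe, Finset.mem_product, mem_range, mem_range]
        exact ⟨h2, lt_of_lt_of_le h (Nat.pow_le_pow_right (by norm_num) (by omega))⟩
      rw [norm_smul, norm_inv, Real.norm_of_nonneg (mu_pos _).le]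
      refine lt_of_le_of_lt ?_ (hN g.1 h1)
      exact mul_le_mul_of_nonneg_left (norm_u g) (inv_nonneg.2 (mu_pos _).le)
    · rw [u_out g h, smul_zero, norm_zero]
      exact hε
  set S : ℝ := ∑' g : ℕ × ℕ, (if g.2 < 2 ^ (g.1 + 2) then
    Real.exp (1 / 8) ^ g.1 * mu g.1 else 0) with hS
  have hS0 : 0 ≤ S := tsum_nonneg fun g => by
    have := mu_pos g.1
    split_ifs
    · positivity
    · exact le_rfl
  obtain ⟨T, hT, hTK⟩ := hAP _ hvt.isCompact_insert_range_of_cofinite (1 / (2 * (S + 1)))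
    (by positivity)
  have h1 := (trace_zero T hT).sub trace_one
  have h2 : ∀ g, |ev g (T (u g)) - ev g (u g)| ≤ (if g.2 < 2 ^ (g.1 + 2) then
      Real.exp (1 / 8) ^ g.1 * mu g.1 else 0) * (1 / (2 * (S + 1))) := by
    intro g
    have e : ev g (T (u g)) - ev g (u g) = ev g (T (u g) - u g) := by
      show _ = cX g.1 0 g.2 0 ((T (u g) : Amb) - (u g : Amb))
      rw [map_sub]
      rfl
    rw [e]
    split_ifs with h
    · refine (ev_le g _).trans ?_
      have h3 := (hTK (v g) (Set.mem_insert_of_mem _ ⟨g, rfl⟩)).le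
      have h4 : u g = mu g.1 • v g := by
        rw [hv]
        show u g = mu g.1 • (mu g.1)⁻¹ • u g
        rw [smul_smul, mul_inv_cancel₀ (mu_pos _).ne', one_smul]
      have h5 : ‖T (u g) - u g‖ = mu g.1 * ‖T (v g) - v g‖ := by
        rw [h4, map_smul, ← smul_sub, norm_smul, Real.norm_of_nonneg (mu_pos _).le]
      rw [h5, mul_assoc]
      have := mu_pos g.1
      gcongr
    · rw [ev_out g h, abs_zero, zero_mul]
  have h3 : ‖(0 - 1 : ℝ)‖ ≤ S * (1 / (2 * (S + 1))) := by
    rw [hS, ← tsum_mul_right]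
    rw [← h1.tsum_eq]
    exact tsum_of_norm_bounded (summable_mu.mul_right _).hasSum h2
  have h4 : S * (1 / (2 * (S + 1))) < 1 := by
    rw [mul_one_div, div_lt_one (by positivity)]
    linarith
  rw [zero_sub, norm_neg, norm_one] at h3
  linarith

end Pool.Agent.D0H27.CAP
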