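import Pool.Agent.D0H27.CAP.Hier
import Pool.Agent.D0H27.CAP.Strong
import Pool.Agent.D0H27.CAP.Trace
import Pool.Agent.D0H27.CAP.TowerES

/-!
Real and complex scalars: the space `𝕜 →L[ℝ] ES` of real linear maps is a Banach space over `𝕜`
(multiplication in the argument); it is the complexification of `ES` for `𝕜 = ℂ`.
-/

set_option autoImplicit false

open Set Filter Topology

namespace Pool.Agent.D0H27.CAP

open Pool.Agent.R884.AffB (IsAffine IsBaireOne IsAffineOne HasAP)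

/-- The compact approximation property of a normed space `E` over `𝕜`: the identity is
approximated, uniformly on every compact set, by compact operators. -/
def HasCAP (𝕜 E : Type*) [RCLike 𝕜] [NormedAddCommGroup E] [NormedSpace 𝕜 E] : Prop :=
  ∀ K : Set E, IsCompact K → ∀ ε : ℝ, 0 < ε →
    ∃ T : E →L[𝕜] E, IsCompactOperator T ∧ ∀ x ∈ K, ‖T x - x‖ < ε

section

variable (𝕜 : Type) [RCLike 𝕜]

/-- real linear maps from the scalars to the space -/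
def EK : Type := 𝕜 →L[ℝ] ES

noncomputable instance : NormedAddCommGroup (EK 𝕜) :=
  inferInstanceAs (NormedAddCommGroup (𝕜 →L[ℝ] ES))

noncomputable instance : NormedSpace ℝ (EK 𝕜) := inferInstanceAs (NormedSpace ℝ (𝕜 →L[ℝ] ES))

instance : CompleteSpace (EK 𝕜) := inferInstanceAs (CompleteSpace (𝕜 →L[ℝ] ES))

/-- multiplication by a scalar, as a real linear map -/
noncomputable def mulc (c : 𝕜) : 𝕜 →L[ℝ] 𝕜 := ContinuousLinearMap.mul ℝ 𝕜 c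

lemma mulc_apply (c z : 𝕜) : mulc 𝕜 c z = c * z := rfl

lemma norm_mulc_le (c : 𝕜) : ‖mulc 𝕜 c‖ ≤ ‖c‖ := ContinuousLinearMap.opNorm_mul_apply_le ℝ 𝕜 c

noncomputable instance instSMul : SMul 𝕜 (EK 𝕜) where
  smul c T := ContinuousLinearMap.comp (show 𝕜 →L[ℝ] ES from T) (mulc 𝕜 c)

lemma smulK_apply (c : 𝕜) (T : EK 𝕜) (z : 𝕜) :
    (show 𝕜 →L[ℝ] ES from c • T) z = (show 𝕜 →L[ℝ] ES from T) (c * z) := rfl

lemma extK {S T : EK 𝕜} (h : ∀ z, (show 𝕜 →L[ℝ] ES from S) z = (show 𝕜 →L[ℝ] ES from T) z) :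
    S = T := ContinuousLinearMap.ext h

noncomputable instance instModule : Module 𝕜 (EK 𝕜) where
  one_smul T := extK 𝕜 fun z => by rw [smulK_apply, one_mul]
  mul_smul a b T := extK 𝕜 fun z => by
    rw [smulK_apply, smulK_apply, smulK_apply, ← mul_assoc, mul_comm b a]
  smul_zero _ := rfl
  smul_add _ _ _ := rfl
  add_smul a b T := extK 𝕜 fun z => by
    rw [smulK_apply, add_mul]
    exact map_add (show 𝕜 →L[ℝ] ES from T) _ _
  zero_smul T := extK 𝕜 fun z => by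
    rw [smulK_apply, zero_mul]
    exact map_zero (show 𝕜 →L[ℝ] ES from T)

noncomputable instance instNormedSpaceK : NormedSpace 𝕜 (EK 𝕜) where
  norm_smul_le c T := by
    refine (ContinuousLinearMap.opNorm_comp_le (show 𝕜 →L[ℝ] ES from T) (mulc 𝕜 c)).trans ?_
    rw [mul_comm]
    exact mul_le_mul_of_nonneg_right (norm_mulc_le 𝕜 c)
      (ContinuousLinearMap.opNorm_nonneg (show 𝕜 →L[ℝ] ES from T))

instance : IsScalarTower ℝ 𝕜 (EK 𝕜) where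
  smul_assoc r c T := extK 𝕜 fun z => by
    rw [smulK_apply]
    show _ = r • (show 𝕜 →L[ℝ] ES from T) (c * z)
    rw [smul_mul_assoc]
    exact map_smul (show 𝕜 →L[ℝ] ES from T) r _

/-- evaluation -/
noncomputable def evK (a : 𝕜) : EK 𝕜 →L[ℝ] ES :=
  (ContinuousLinearMap.apply ℝ ES a : (𝕜 →L[ℝ] ES) →L[ℝ] ES)

lemma evK_apply (a : 𝕜) (T : EK 𝕜) : evK 𝕜 a T = (show 𝕜 →L[ℝ] ES from T) a := rfl

/-- embeddings -/
noncomputable def emb (l : 𝕜 →L[ℝ] ℝ) : ES →L[ℝ] EK 𝕜 :=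
  (ContinuousLinearMap.smulRightL ℝ 𝕜 ES l : ES →L[ℝ] (𝕜 →L[ℝ] ES))

lemma emb_apply (l : 𝕜 →L[ℝ] ℝ) (v : ES) (z : 𝕜) :
    (show 𝕜 →L[ℝ] ES from emb 𝕜 l v) z = l z • v := rfl

lemma decomp (T : EK 𝕜) : emb 𝕜 RCLike.reCLM (evK 𝕜 1 T) +
    emb 𝕜 RCLike.imCLM (evK 𝕜 (RCLike.I : 𝕜) T) = T := by
  refine extK 𝕜 fun z => ?_
  show RCLike.re z • (show 𝕜 →L[ℝ] ES from T) 1 +
    RCLike.im z • (show 𝕜 →L[ℝ] ES from T) RCLike.I = (show 𝕜 →L[ℝ] ES from T) z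
  rw [← map_smul, ← map_smul, ← map_add]
  congr 1
  rw [RCLike.real_smul_eq_coe_mul, RCLike.real_smul_eq_coe_mul, mul_one]
  exact RCLike.re_add_im z

/-- an operator acting on the values -/
noncomputable def post (S : ES →L[ℝ] ES) : EK 𝕜 →L[𝕜] EK 𝕜 :=
  LinearMap.mkContinuous
    { toFun := fun T => (show EK 𝕜 from S.comp (show 𝕜 →L[ℝ] ES from T))
      map_add' := fun _ _ => extK 𝕜 fun _ => map_add S _ _
      map_smul' := fun _ _ => rfl }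
    ‖S‖ (fun T => ContinuousLinearMap.opNorm_comp_le S (show 𝕜 →L[ℝ] ES from T))

lemma post_apply (S : ES →L[ℝ] ES) (T : EK 𝕜) (z : 𝕜) :
    (show 𝕜 →L[ℝ] ES from post 𝕜 S T) z = S ((show 𝕜 →L[ℝ] ES from T) z) := rfl

lemma post_eq (S : ES →L[ℝ] ES) (T : EK 𝕜) : post 𝕜 S T =
    emb 𝕜 RCLike.reCLM (S (evK 𝕜 1 T)) + emb 𝕜 RCLike.imCLM (S (evK 𝕜 (RCLike.I : 𝕜) T)) :=
  (decomp 𝕜 (post 𝕜 S T)).symm

lemma compact_post (S : ES →L[ℝ] ES) (hS : IsCompactOperator S) :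
    IsCompactOperator (post 𝕜 S) := by
  have h1 : IsCompactOperator (fun T : EK 𝕜 => emb 𝕜 RCLike.reCLM (S (evK 𝕜 1 T))) :=
    (hS.comp_clm (evK 𝕜 1)).clm_comp (emb 𝕜 RCLike.reCLM)
  have h2 : IsCompactOperator
      (fun T : EK 𝕜 => emb 𝕜 RCLike.imCLM (S (evK 𝕜 (RCLike.I : 𝕜) T))) :=
    (hS.comp_clm (evK 𝕜 (RCLike.I : 𝕜))).clm_comp (emb 𝕜 RCLike.imCLM)
  have h3 := h1.add h2
  have e : (post 𝕜 S : EK 𝕜 → EK 𝕜) = (fun T : EK 𝕜 => emb 𝕜 RCLike.reCLM (S (evK 𝕜 1 T))) +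
      (fun T : EK 𝕜 => emb 𝕜 RCLike.imCLM (S (evK 𝕜 (RCLike.I : 𝕜) T))) :=
    funext fun T => post_eq 𝕜 S T
  rw [e]
  exact h3

lemma tendsto_post (T : EK 𝕜) : Tendsto (fun m => post 𝕜 (TE m) T) atTop (𝓝 T) := by
  have h1 := ((emb 𝕜 RCLike.reCLM).continuous.tendsto _).comp (tendsto_TE (evK 𝕜 1 T))
  have h2 := ((emb 𝕜 RCLike.imCLM).continuous.tendsto _).comp
    (tendsto_TE (evK 𝕜 (RCLike.I : 𝕜) T))
  have h3 := h1.add h2
  rw [decomp] at h3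
  exact h3.congr fun m => (post_eq 𝕜 (TE m) T).symm

/-- the space has the compact approximation property -/
theorem hasCAP_EK : HasCAP 𝕜 (EK 𝕜) := by
  intro K hK ε hε
  obtain ⟨n, hn⟩ := uniform_on_compact (fun m => (post 𝕜 (TE m)).restrictScalars ℝ)
    (tendsto_post 𝕜) K hK ε hε
  exact ⟨post 𝕜 (TE n), compact_post 𝕜 _ (compact_TE n), hn⟩

/-- the affine map -/
noncomputable def fK (x : TT.X) : EK 𝕜 := emb 𝕜 RCLike.reCLM (TT.f x)

lemma evK_fK (x : TT.X) : evK 𝕜 1 (fK 𝕜 x) = TT.f x := by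
  show RCLike.re (1 : 𝕜) • TT.f x = TT.f x
  rw [RCLike.one_re, one_smul]

lemma isAffine_fK : IsAffine TT.X (fK 𝕜) := by
  intro x y z t h0 h1 hz
  unfold fK
  rw [TT.isAffine_f x y z t h0 h1 hz, map_add, map_smul, map_smul]

lemma isBaireOne_fK : IsBaireOne TT.X univ (fK 𝕜) := by
  obtain ⟨_, F, hc, _, hl⟩ := TT.isBaireOne_f
  refine ⟨fun _ => mem_univ _, fun n x => emb 𝕜 RCLike.reCLM (F n x), fun n => ?_,
    fun _ _ => mem_univ _, fun x => ?_⟩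
  · exact (emb 𝕜 RCLike.reCLM).continuous.comp (hc n)
  · exact ((emb 𝕜 RCLike.reCLM).continuous.tendsto _).comp (hl x)

lemma not_affineBaire_fK : ¬ AffineBaire TT.X (fK 𝕜) := by
  intro h
  have h1 := h.clm_comp (evK 𝕜 1)
  have e : (fun x => evK 𝕜 1 (fK 𝕜 x)) = TT.f := funext (evK_fK 𝕜)
  rw [e] at h1
  exact not_AP (TT.hasAP_of_affineBaire h1)

end

end Pool.Agent.D0H27.CAP
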