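import Pool.Agent.D0H27.CAP.Mat

/-!
The space: weighted dyadic martingales with values in the kernel of the matrix.
-/

set_option autoImplicit false

open Filter Topology Finset
open scoped ENNReal

namespace Pool.Agent.D0H27.CAP

/-- the blocks: level `q.1`, dyadic scale `q.2` -/
abbrev Blk (q : ℕ × ℕ) : Type := Fin (2 ^ (q.1 + 2)) × Fin (2 ^ q.2) → ℝ

/-- the ambient space -/
abbrev Amb : Type := lp Blk 1

lemma summable_norm (y : Amb) : Summable fun q => ‖y q‖ := by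
  have h := (memℓp_gen_iff (p := 1) (by norm_num)).1 (lp.memℓp y)
  simpa using h

lemma norm_eq (y : Amb) : ‖y‖ = ∑' q, ‖y q‖ := by
  have h := lp.norm_eq_tsum_rpow (p := 1) (by norm_num) y
  simpa using h

/-- the weights -/
noncomputable def wt (k n j : ℕ) : ℝ :=
  (3 / 4) ^ n * Real.exp (-((k : ℝ) * ((j : ℝ) + 1) / (8 * 2 ^ n)))

lemma wt_pos (k n j : ℕ) : 0 < wt k n j := by unfold wt; positivity

lemma wt_le (k n j : ℕ) : wt k n j ≤ (3 / 4) ^ n := by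
  unfold wt
  have h : Real.exp (-((k : ℝ) * ((j : ℝ) + 1) / (8 * 2 ^ n))) ≤ 1 := by
    rw [Real.exp_le_one_iff, neg_nonpos]
    positivity
  exact mul_le_of_le_one_right (by positivity) h

/-- the coordinates -/
noncomputable def cX (k n i j : ℕ) : Amb →L[ℝ] ℝ :=
  if h : i < 2 ^ (k + 2) ∧ j < 2 ^ n then
    (wt k n j)⁻¹ • ((ContinuousLinearMap.proj
      ((⟨i, h.1⟩, ⟨j, h.2⟩) : Fin (2 ^ (k + 2)) × Fin (2 ^ n))).comp (lp.evalCLM ℝ Blk 1 (k, n)))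
  else 0

lemma cX_apply {k n i j : ℕ} (hi : i < 2 ^ (k + 2)) (hj : j < 2 ^ n) (y : Amb) :
    cX k n i j y = (wt k n j)⁻¹ * y (k, n) (⟨i, hi⟩, ⟨j, hj⟩) := by
  unfold cX
  rw [dif_pos ⟨hi, hj⟩]
  rfl

lemma cX_out {k n i j : ℕ} (h : ¬ (i < 2 ^ (k + 2) ∧ j < 2 ^ n)) (y : Amb) :
    cX k n i j y = 0 := by
  unfold cX
  rw [dif_neg h]
  rfl

lemma wt_cX_le (k n i j : ℕ) (y : Amb) : wt k n j * |cX k n i j y| ≤ ‖y (k, n)‖ := by
  by_cases h : i < 2 ^ (k + 2) ∧ j < 2 ^ n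
  · rw [cX_apply h.1 h.2, abs_mul, abs_of_pos (inv_pos.2 (wt_pos k n j)), ← mul_assoc,
      mul_inv_cancel₀ (wt_pos k n j).ne', one_mul]
    exact norm_le_pi_norm (y (k, n)) _
  · rw [cX_out h, abs_zero, mul_zero]
    exact norm_nonneg _

/-- a block with given coordinates -/
noncomputable def mkB (ξ : ℕ → ℕ → ℝ) (k n : ℕ) : Blk (k, n) := fun p => wt k n p.2 * ξ p.1 p.2

lemma norm_mkB_le (ξ : ℕ → ℕ → ℝ) (k n : ℕ) (C : ℝ) (hC : 0 ≤ C)
    (h : ∀ i < 2 ^ (k + 2), ∀ j < 2 ^ n, wt k n j * |ξ i j| ≤ C) : ‖mkB ξ k n‖ ≤ C := by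
  refine (pi_norm_le_iff_of_nonneg hC).2 fun p => ?_
  show |wt k n p.2 * ξ p.1 p.2| ≤ C
  rw [abs_mul, abs_of_pos (wt_pos _ _ _)]
  exact h _ p.1.2 _ p.2.2

/-- an element with given coordinates -/
noncomputable def mk (ξ : ℕ → ℕ → ℕ → ℕ → ℝ) (b : ℕ × ℕ → ℝ) (hb : Summable b)
    (h : ∀ q : ℕ × ℕ, ‖mkB (ξ q.1 q.2) q.1 q.2‖ ≤ b q) : Amb :=
  ⟨fun q => mkB (ξ q.1 q.2) q.1 q.2, by
    refine memℓp_gen ?_
    have : Summable fun q : ℕ × ℕ => ‖mkB (ξ q.1 q.2) q.1 q.2‖ :=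
      Summable.of_nonneg_of_le (fun _ => norm_nonneg _) h hb
    simpa using this⟩

lemma mk_apply (ξ : ℕ → ℕ → ℕ → ℕ → ℝ) (b : ℕ × ℕ → ℝ) (hb : Summable b)
    (h : ∀ q : ℕ × ℕ, ‖mkB (ξ q.1 q.2) q.1 q.2‖ ≤ b q) (q : ℕ × ℕ) :
    mk ξ b hb h q = mkB (ξ q.1 q.2) q.1 q.2 := rfl

lemma cX_mk (ξ : ℕ → ℕ → ℕ → ℕ → ℝ) (b : ℕ × ℕ → ℝ) (hb : Summable b)
    (h : ∀ q : ℕ × ℕ, ‖mkB (ξ q.1 q.2) q.1 q.2‖ ≤ b q) {k n i j : ℕ} (hi : i < 2 ^ (k + 2))
    (hj : j < 2 ^ n) : cX k n i j (mk ξ b hb h) = ξ k n i j := by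
  rw [cX_apply hi hj, mk_apply]
  show (wt k n j)⁻¹ * (wt k n j * ξ k n i j) = _
  rw [← mul_assoc, inv_mul_cancel₀ (wt_pos k n j).ne', one_mul]

lemma norm_mk_le (ξ : ℕ → ℕ → ℕ → ℕ → ℝ) (b : ℕ × ℕ → ℝ) (hb : Summable b)
    (h : ∀ q : ℕ × ℕ, ‖mkB (ξ q.1 q.2) q.1 q.2‖ ≤ b q) : ‖mk ξ b hb h‖ ≤ ∑' q, b q := by
  rw [norm_eq]
  exact (summable_norm _).tsum_le_tsum (fun q => h q) hb

lemma amb_ext {y z : Amb} (h : ∀ k n i j, i < 2 ^ (k + 2) → j < 2 ^ n →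
    cX k n i j y = cX k n i j z) : y = z := by
  apply lp.ext
  funext q
  funext p
  have h1 := h q.1 q.2 p.1 p.2 p.1.2 p.2.2
  rw [cX_apply p.1.2 p.2.2, cX_apply p.1.2 p.2.2] at h1
  exact mul_left_cancel₀ (inv_ne_zero (wt_pos _ _ _).ne') h1

/-- the defining relations -/
def Rel (y : Amb) : Prop :=
  (∀ k n i j, j < 2 ^ n →
    cX k n i j y = (cX k (n + 1) i (2 * j) y + cX k (n + 1) i (2 * j + 1) y) / 2) ∧
  ∀ n j (x : ℕ × ℕ), ∑ k ∈ range (x.1 + 2), ∑ i ∈ range (2 ^ (k + 2)),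
    cX k n i j y * am (k, i) x = 0

/-- the space -/
def Es : Submodule ℝ Amb where
  carrier := {y | Rel y}
  add_mem' {y z} hy hz := by
    refine ⟨fun k n i j hj => ?_, fun n j x => ?_⟩
    · rw [map_add, map_add, map_add, hy.1 k n i j hj, hz.1 k n i j hj]
      ring
    · simp only [map_add, add_mul, Finset.sum_add_distrib]
      rw [hy.2 n j x, hz.2 n j x, add_zero]
  zero_mem' := by
    refine ⟨fun k n i j hj => ?_, fun n j x => ?_⟩
    · simp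
    · simp
  smul_mem' c y hy := by
    refine ⟨fun k n i j hj => ?_, fun n j x => ?_⟩
    · rw [map_smul, map_smul, map_smul, hy.1 k n i j hj, smul_eq_mul, smul_eq_mul, smul_eq_mul]
      ring
    · simp only [map_smul, smul_eq_mul, mul_assoc, ← Finset.mul_sum]
      rw [hy.2 n j x, mul_zero]

lemma mem_Es {y : Amb} : y ∈ Es ↔ Rel y := Iff.rfl

theorem isClosed_Es : IsClosed (Es : Set Amb) := by
  have h : (Es : Set Amb) =
      (⋂ k, ⋂ n, ⋂ i, ⋂ j, ⋂ _ : j < 2 ^ n, {y : Amb | cX k n i j y =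
        (cX k (n + 1) i (2 * j) y + cX k (n + 1) i (2 * j + 1) y) / 2}) ∩
      ⋂ n, ⋂ j, ⋂ x : ℕ × ℕ, {y : Amb | ∑ k ∈ range (x.1 + 2), ∑ i ∈ range (2 ^ (k + 2)),
        cX k n i j y * am (k, i) x = 0} := by
    ext y
    simp only [Set.mem_inter_iff, Set.mem_iInter]
    exact Iff.rfl
  rw [h]
  refine IsClosed.inter ?_ ?_
  · refine isClosed_iInter fun k => isClosed_iInter fun n => isClosed_iInter fun i =>
      isClosed_iInter fun j => isClosed_iInter fun _ => isClosed_eq (cX k n i j).continuous ?_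
    exact ((cX k (n + 1) i (2 * j)).continuous.add (cX k (n + 1) i (2 * j + 1)).continuous).div_const _
  · refine isClosed_iInter fun n => isClosed_iInter fun j => isClosed_iInter fun x =>
      isClosed_eq ?_ continuous_const
    exact continuous_finsetSum _ fun k _ => continuous_finsetSum _ fun i _ =>
      (cX k n i j).continuous.mul continuous_const

/-- the Banach space -/
abbrev ES : Type := ↥Es

instance : CompleteSpace ES := isClosed_Es.completeSpace_coe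

end Pool.Agent.D0H27.CAP
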